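import Mathlib

/-! Pairs of elements with commutator one in characteristic `p`: independence of monomials, and the
identity `(y x)^p - y x = y^p x^p`. -/

set_option autoImplicit false
set_option linter.all false

open scoped TensorProduct

noncomputable section

namespace Pool.Agent.W5h91.WF

universe u v

section ring

variable {A : Type v} [Ring A]

/-- `[u, v^(n+1)] = (n+1) v^n` -/
theorem comm_pow {u v : A} (h : u * v = v * u + 1) (n : ℕ) :
    u * v ^ (n + 1) = v ^ (n + 1) * u + ((n + 1 : ℕ) : A) * v ^ n := by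
  induction n with
  | zero => simp [h]
  | succ n ih =>
    rw [pow_succ v (n + 1), ← mul_assoc, ih, add_mul, mul_assoc, h, mul_add, mul_one, ← mul_assoc,
      ← pow_succ, mul_assoc ((n + 1 : ℕ) : A), ← pow_succ, add_assoc]
    congr 1
    push_cast
    noncomm_ring

theorem comm_pow' {u v : A} (h : u * v = v * u + 1) (n : ℕ) :
    u * v ^ n = v ^ n * u + (n : A) * v ^ (n - 1) := by
  cases n with
  | zero => simp
  | succ n => simpa using comm_pow h n

end ring

section indep

variable {K : Type u} [Field K] (p : ℕ) [Fact p.Prime] [CharP K p] {A : Type v} [Ring A] [Algebra K A]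

include K in
/-- independence of the powers of `v` over the elements commuting with `u`. -/
theorem indep_aux {u v : A} (h : u * v = v * u + 1) (n : ℕ) : n ≤ p → ∀ (f : ℕ → A),
    (∀ j, Commute u (f j)) → ∑ j ∈ Finset.range n, f j * v ^ j = 0 → ∀ j < n, f j = 0 := by
  induction n with
  | zero => intro _ f _ _ j hj; omega
  | succ n ih =>
    intro hn f hf hs
    have key : ∑ j ∈ Finset.range n, (((j + 1 : ℕ) : A) * f (j + 1)) * v ^ j = 0 := by
      have e1 : u * (∑ j ∈ Finset.range (n + 1), f j * v ^ j) -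
          (∑ j ∈ Finset.range (n + 1), f j * v ^ j) * u = 0 := by rw [hs]; simp
      rw [Finset.mul_sum, Finset.sum_mul, ← Finset.sum_sub_distrib, Finset.sum_range_succ'] at e1
      have e2 : u * (f 0 * v ^ 0) - f 0 * v ^ 0 * u = 0 := by
        rw [pow_zero, mul_one]; exact sub_eq_zero.2 (hf 0)
      rw [e2, add_zero] at e1
      rw [← e1]
      refine Finset.sum_congr rfl (fun j _ => ?_)
      rw [← mul_assoc u, (hf (j + 1)).eq, mul_assoc (f (j + 1)) u, comm_pow h, mul_add,
        ← mul_assoc (f (j + 1)) (v ^ (j + 1)) u, add_sub_cancel_left, ← mul_assoc (f (j + 1)),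
        (Nat.cast_commute (j + 1) (f (j + 1))).eq]
    have h1 := ih (by omega) (fun j => ((j + 1 : ℕ) : A) * f (j + 1))
      (fun j => (Nat.commute_cast u (j + 1)).mul_right (hf (j + 1))) key
    have h2 : ∀ j < n, f (j + 1) = 0 := by
      intro j hj
      have h3 := h1 j hj
      have h4 : ((j + 1 : ℕ) : K) ≠ 0 := by
        rw [Ne, CharP.cast_eq_zero_iff K p]
        intro hd
        have := Nat.le_of_dvd (by omega) hd
        omega
      have h5 : (((j + 1 : ℕ) : K)) • f (j + 1) = 0 := by
        rw [Algebra.smul_def, map_natCast]; exact h3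
      exact (smul_eq_zero.1 h5).resolve_left h4
    have h0 : f 0 = 0 := by
      rw [Finset.sum_range_succ'] at hs
      have h6 : ∑ k ∈ Finset.range n, f (k + 1) * v ^ (k + 1) = 0 :=
        Finset.sum_eq_zero (fun j hj => by rw [h2 j (Finset.mem_range.1 hj), zero_mul])
      rw [h6, zero_add, pow_zero, mul_one] at hs
      exact hs
    intro j hj
    cases j with
    | zero => exact h0
    | succ j => exact h2 j (by omega)

include K in
/-- if `∑ f_j v^j` commutes with `u` then only `f_0` is nonzero. -/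
theorem indep_comm {u v : A} (h : u * v = v * u + 1) (f : ℕ → A)
    (hf : ∀ j, Commute u (f j)) (hs : Commute u (∑ j ∈ Finset.range p, f j * v ^ j)) :
    ∀ j < p, j ≠ 0 → f j = 0 := by
  obtain ⟨n, hn⟩ : ∃ n, p = n + 1 := ⟨p - 1, by have := (Fact.out : p.Prime).pos; omega⟩
  rw [hn] at hs ⊢
  have key : ∑ j ∈ Finset.range n, (((j + 1 : ℕ) : A) * f (j + 1)) * v ^ j = 0 := by
    have e1 : u * (∑ j ∈ Finset.range (n + 1), f j * v ^ j) -
        (∑ j ∈ Finset.range (n + 1), f j * v ^ j) * u = 0 := sub_eq_zero.2 hs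
    rw [Finset.mul_sum, Finset.sum_mul, ← Finset.sum_sub_distrib, Finset.sum_range_succ'] at e1
    have e2 : u * (f 0 * v ^ 0) - f 0 * v ^ 0 * u = 0 := by
      rw [pow_zero, mul_one]; exact sub_eq_zero.2 (hf 0)
    rw [e2, add_zero] at e1
    rw [← e1]
    refine Finset.sum_congr rfl (fun j _ => ?_)
    rw [← mul_assoc u, (hf (j + 1)).eq, mul_assoc (f (j + 1)) u, comm_pow h, mul_add,
      ← mul_assoc (f (j + 1)) (v ^ (j + 1)) u, add_sub_cancel_left, ← mul_assoc (f (j + 1)),
      (Nat.cast_commute (j + 1) (f (j + 1))).eq]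
  have h1 := indep_aux (K := K) p h n (by omega) (fun j => ((j + 1 : ℕ) : A) * f (j + 1))
    (fun j => (Nat.commute_cast u (j + 1)).mul_right (hf (j + 1))) key
  intro j hj hj0
  obtain ⟨i, rfl⟩ : ∃ i, j = i + 1 := ⟨j - 1, by omega⟩
  have h3 := h1 i (by omega)
  have h4 : ((i + 1 : ℕ) : K) ≠ 0 := by
    rw [Ne, CharP.cast_eq_zero_iff K p]
    intro hd
    have := Nat.le_of_dvd (by omega) hd
    omega
  have h5 : (((i + 1 : ℕ) : K)) • f (i + 1) = 0 := by
    rw [Algebra.smul_def, map_natCast]; exact h3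
  exact (smul_eq_zero.1 h5).resolve_left h4

/-- double sums -/
def dsum (x y : A) (c : Fin p × Fin p → K) : A := ∑ ij, c ij • (y ^ (ij.1 : ℕ) * x ^ (ij.2 : ℕ))

theorem dsum_eq (x y : A) (c : Fin p × Fin p → K) :
    dsum p x y c = ∑ j ∈ Finset.range p,
      (if h : j < p then ∑ i : Fin p, c (i, ⟨j, h⟩) • y ^ (i : ℕ) else 0) * x ^ j := by
  rw [dsum, Fintype.sum_prod_type_right, Finset.sum_range]
  refine Finset.sum_congr rfl (fun j _ => ?_)
  rw [dif_pos j.2, Finset.sum_mul]
  refine Finset.sum_congr rfl (fun i _ => ?_)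
  rw [smul_mul_assoc]

theorem neg_comm {x y : A} (h : x * y = y * x + 1) : (-y) * x = x * (-y) + 1 := by
  rw [mul_neg, h]; noncomm_ring

theorem row_comm {y : A} (c : Fin p × Fin p → K) (j : ℕ) :
    Commute (-y) (if h : j < p then ∑ i : Fin p, c (i, ⟨j, h⟩) • y ^ (i : ℕ) else 0) := by
  split_ifs with h
  · exact Commute.sum_right _ _ _ (fun i _ => ((Commute.neg_left (Commute.self_pow y i)).smul_right _))
  · exact Commute.zero_right _

theorem row_eq {y : A} (c : Fin p → K) : ∑ i : Fin p, c i • y ^ (i : ℕ) =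
    ∑ i ∈ Finset.range p, (if h : i < p then algebraMap K A (c ⟨i, h⟩) else 0) * y ^ i := by
  rw [Finset.sum_range]
  refine Finset.sum_congr rfl (fun i _ => ?_)
  rw [dif_pos i.2, Algebra.smul_def]

theorem sc_comm {x : A} (c : Fin p → K) (i : ℕ) :
    Commute x (if h : i < p then algebraMap K A (c ⟨i, h⟩) else 0) := by
  split_ifs with h
  · exact (Algebra.commutes _ _).symm
  · exact Commute.zero_right _

/-- the monomials `y^i x^j` are linearly independent -/
theorem linIndep [Nontrivial A] {x y : A} (h : x * y = y * x + 1) :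
    LinearIndependent K (fun ij : Fin p × Fin p => y ^ (ij.1 : ℕ) * x ^ (ij.2 : ℕ)) := by
  rw [Fintype.linearIndependent_iff]
  intro c hc
  have hc' : dsum p x y c = 0 := hc
  rw [dsum_eq] at hc'
  have h1 := indep_aux (K := K) p (neg_comm h) p le_rfl _ (row_comm p c) hc'
  rintro ⟨i, j⟩
  have h2 := h1 j j.2
  rw [dif_pos j.2, row_eq p (fun i => c (i, ⟨j, j.2⟩))] at h2
  have h3 := indep_aux (K := K) p h p le_rfl _ (sc_comm p (fun i => c (i, ⟨j, j.2⟩))) h2 i i.2
  rw [dif_pos i.2] at h3
  exact (FaithfulSMul.algebraMap_injective K A) (by rw [map_zero]; exact h3)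

/-- the monomials span the algebra generated by `x, y` -/
theorem span_top {x y : A} (h : x * y = y * x + 1) {a b : K} (hx : x ^ p = algebraMap K A a)
    (hy : y ^ p = algebraMap K A b) (hg : Algebra.adjoin K {x, y} = ⊤) :
    ⊤ ≤ Submodule.span K (Set.range (fun ij : Fin p × Fin p => y ^ (ij.1 : ℕ) * x ^ (ij.2 : ℕ))) := by
  have hp := (Fact.out : p.Prime).pos
  set S := Submodule.span K (Set.range (fun ij : Fin p × Fin p => y ^ (ij.1 : ℕ) * x ^ (ij.2 : ℕ)))
    with hS
  have hm : ∀ i j : ℕ, i ≤ p → j ≤ p → y ^ i * x ^ j ∈ S := by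
    have h0 : ∀ i j : ℕ, i < p → j < p → y ^ i * x ^ j ∈ S := fun i j hi hj =>
      Submodule.subset_span ⟨(⟨i, hi⟩, ⟨j, hj⟩), rfl⟩
    have h1 : ∀ i j : ℕ, i < p → j ≤ p → y ^ i * x ^ j ∈ S := by
      intro i j hi hj
      rcases hj.lt_or_eq with hj | rfl
      · exact h0 i j hi hj
      · rw [hx, ← Algebra.commutes, ← Algebra.smul_def]
        exact S.smul_mem _ (by simpa using h0 i 0 hi hp)
    intro i j hi hj
    rcases hi.lt_or_eq with hi | rfl
    · exact h1 i j hi hj
    · rw [hy, ← Algebra.smul_def]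
      exact S.smul_mem _ (by simpa using h1 0 j hp hj)
  have hmulL : ∀ (z : A), (∀ i j : ℕ, i < p → j < p → z * (y ^ i * x ^ j) ∈ S) → ∀ s ∈ S, z * s ∈ S := by
    intro z hz s hs
    induction hs using Submodule.span_induction with
    | mem s hs =>
      obtain ⟨ij, rfl⟩ := hs
      exact hz _ _ ij.1.2 ij.2.2
    | zero => rw [mul_zero]; exact S.zero_mem
    | add s t _ _ hs ht => rw [mul_add]; exact S.add_mem hs ht
    | smul c s _ hs => rw [mul_smul_comm]; exact S.smul_mem _ hs
  have hyS : ∀ s ∈ S, y * s ∈ S := hmulL y (fun i j hi hj => by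
    rw [← mul_assoc, ← pow_succ']; exact hm _ _ (by omega) (by omega))
  have hxS : ∀ s ∈ S, x * s ∈ S := hmulL x (fun i j hi hj => by
    rw [← mul_assoc, comm_pow' h, add_mul]
    refine S.add_mem ?_ ?_
    · rw [mul_assoc, ← pow_succ']; exact hm _ _ (by omega) (by omega)
    · rw [mul_assoc, ← map_natCast (algebraMap K A), ← Algebra.smul_def]
      exact S.smul_mem _ (hm _ _ (by omega) (by omega)))
  have hall : ∀ z ∈ Algebra.adjoin K {x, y}, ∀ s ∈ S, z * s ∈ S := by
    intro z hz
    induction hz using Algebra.adjoin_induction with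
    | mem z hz =>
      rcases hz with rfl | hz
      · exact hxS
      · rw [Set.mem_singleton_iff] at hz; subst hz; exact hyS
    | algebraMap c => intro s hs; rw [← Algebra.smul_def]; exact S.smul_mem _ hs
    | add z w _ _ hz hw => intro s hs; rw [add_mul]; exact S.add_mem (hz s hs) (hw s hs)
    | mul z w _ _ hz hw => intro s hs; rw [mul_assoc]; exact hz _ (hw s hs)
  intro z _
  have h1 : (1 : A) ∈ S := by simpa using hm 0 0 (by omega) (by omega)
  have := hall z (by rw [hg]; trivial) 1 h1
  rwa [mul_one] at this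

/-- the basis of monomials -/
def monBasis [Nontrivial A] {x y : A} (h : x * y = y * x + 1) {a b : K} (hx : x ^ p = algebraMap K A a)
    (hy : y ^ p = algebraMap K A b) (hg : Algebra.adjoin K {x, y} = ⊤) :
    Module.Basis (Fin p × Fin p) K A :=
  Module.Basis.mk (linIndep p h) (span_top p h hx hy hg)

/-- a nontrivial algebra generated by `x, y` with `x^p = a`, `y^p = b`, `xy - yx = 1` is central simple of
dimension `p^2`. -/
theorem csa [Nontrivial A] {x y : A} (h : x * y = y * x + 1) {a b : K} (hx : x ^ p = algebraMap K A a)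
    (hy : y ^ p = algebraMap K A b) (hg : Algebra.adjoin K {x, y} = ⊤) :
    Algebra.IsCentral K A ∧ IsSimpleRing A ∧ FiniteDimensional K A ∧ Module.finrank K A = p ^ 2 := by
  have hp := (Fact.out : p.Prime).pos
  refine ⟨⟨?_⟩, ?_, Module.Finite.of_basis (monBasis p h hx hy hg), ?_⟩
  · intro z hz
    rw [Subalgebra.mem_center_iff] at hz
    let B := monBasis p h hx hy hg
    have e1 : z = dsum p x y (fun ij => B.repr z ij) := by
      conv_lhs => rw [← B.sum_repr z]
      rw [dsum]
      refine Finset.sum_congr rfl (fun ij _ => ?_)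
      congr 1
      exact Module.Basis.mk_apply _ _ _
    rw [dsum_eq] at e1
    have h1 := indep_comm (K := K) p (neg_comm h) _ (row_comm p (fun ij => B.repr z ij))
      (by rw [← e1]; exact hz _)
    have e2 : z = ∑ i : Fin p, B.repr z (i, ⟨0, hp⟩) • y ^ (i : ℕ) := by
      refine e1.trans ?_
      rw [Finset.sum_eq_single 0]
      · rw [dif_pos hp, pow_zero, mul_one]
      · intro j hj hj0
        rw [h1 j (Finset.mem_range.1 hj) hj0, zero_mul]
      · intro h0
        exact absurd (Finset.mem_range.2 hp) h0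
    rw [row_eq p (fun i => B.repr z (i, ⟨0, hp⟩))] at e2
    have h2 := indep_comm (K := K) p h _ (sc_comm p (fun i => B.repr z (i, ⟨0, hp⟩)))
      (by rw [← e2]; exact hz _)
    refine Algebra.mem_bot.2 ⟨B.repr z (⟨0, hp⟩, ⟨0, hp⟩), ?_⟩
    refine Eq.trans ?_ e2.symm
    rw [Finset.sum_eq_single 0]
    · rw [dif_pos hp, pow_zero, mul_one]
    · intro j hj hj0
      rw [h2 j (Finset.mem_range.1 hj) hj0, zero_mul]
    · intro h0
      exact absurd (Finset.mem_range.2 hp) h0
  · refine IsSimpleRing.of_eq_bot_or_eq_top fun I => ?_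
    rw [or_iff_not_imp_right]
    intro hI
    let π : A →ₐ[K] I.ringCon.Quotient :=
      { RingCon.mk' I.ringCon with commutes' := fun _ => rfl }
    haveI : Nontrivial I.ringCon.Quotient := by
      refine ⟨⟨π 1, π 0, fun he => hI ?_⟩⟩
      have : I.ringCon 1 0 := (RingCon.eq I.ringCon).1 he
      rw [← TwoSidedIdeal.one_mem_iff, TwoSidedIdeal.mem_iff]
      exact this
    let B := monBasis p h hx hy hg
    have hπ : π x * π y = π y * π x + 1 := by
      rw [← map_mul, h, map_add, map_mul, map_one]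
    have hli := linIndep (K := K) p hπ
    have hinj : Function.Injective π := by
      have h1 : (fun ij : Fin p × Fin p => (π y) ^ (ij.1 : ℕ) * (π x) ^ (ij.2 : ℕ)) =
          fun ij => π.toLinearMap (B ij) := by
        funext ij
        have : B ij = y ^ (ij.1 : ℕ) * x ^ (ij.2 : ℕ) := Module.Basis.mk_apply _ _ _
        rw [this, AlgHom.toLinearMap_apply, map_mul, map_pow, map_pow]
      rw [h1] at hli
      rw [injective_iff_map_eq_zero]
      intro z hz
      have h2 : ∑ ij, B.repr z ij • π.toLinearMap (B ij) = 0 := by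
        rw [← hz]
        conv_rhs => rw [← B.sum_repr z, map_sum]
        refine Finset.sum_congr rfl (fun ij _ => ?_)
        rw [map_smul, AlgHom.toLinearMap_apply]
      have h3 := (Fintype.linearIndependent_iff.1 hli) _ h2
      rw [← B.sum_repr z]
      exact Finset.sum_eq_zero (fun ij _ => by rw [h3 ij, zero_smul])
    rw [eq_bot_iff]
    intro z hz
    rw [TwoSidedIdeal.mem_iff] at hz
    have h2 : π z = π 0 := (RingCon.eq I.ringCon).2 hz
    rw [hinj h2]
    exact TwoSidedIdeal.zero_mem _
  · rw [Module.finrank_eq_card_basis (monBasis p h hx hy hg)]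
    simp [sq]

end indep

end Pool.Agent.W5h91.WF
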