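import Mathlib
import Pool.Agent.W5h91.WF.A

/-! The algebra `W(a,b)` with generators `x, y` and relations `x^p = a`, `y^p = b`, `x y - y x = 1` over a
field of characteristic `p`. -/

set_option autoImplicit false
set_option linter.all false

open scoped TensorProduct

noncomputable section

namespace Pool.Agent.W5h91.WF

universe u v

/-- defining relations -/
inductive WRel (K : Type u) [Field K] (p : ℕ) (a b : K) :
    FreeAlgebra K (Fin 2) → FreeAlgebra K (Fin 2) → Prop
  | xp : WRel K p a b (FreeAlgebra.ι K 0 ^ p) (algebraMap K _ a)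
  | yp : WRel K p a b (FreeAlgebra.ι K 1 ^ p) (algebraMap K _ b)
  | xy : WRel K p a b (FreeAlgebra.ι K 0 * FreeAlgebra.ι K 1)
      (FreeAlgebra.ι K 1 * FreeAlgebra.ι K 0 + 1)

/-- the algebra with generators `x, y` and relations `x^p = a`, `y^p = b`, `xy - yx = 1` -/
def W (K : Type u) [Field K] (p : ℕ) (a b : K) : Type u := RingQuot (WRel K p a b)

variable {K : Type u} [Field K] {p : ℕ} {a b : K}

instance : Ring (W K p a b) := inferInstanceAs (Ring (RingQuot (WRel K p a b)))

instance : Algebra K (W K p a b) := inferInstanceAs (Algebra K (RingQuot (WRel K p a b)))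

/-- generator -/
def wx (K : Type u) [Field K] (p : ℕ) (a b : K) : W K p a b :=
  RingQuot.mkAlgHom K (WRel K p a b) (FreeAlgebra.ι K 0)

/-- generator -/
def wy (K : Type u) [Field K] (p : ℕ) (a b : K) : W K p a b :=
  RingQuot.mkAlgHom K (WRel K p a b) (FreeAlgebra.ι K 1)

theorem wx_pow : wx K p a b ^ p = algebraMap K _ a := by
  have := RingQuot.mkAlgHom_rel K (WRel.xp (K := K) (p := p) (a := a) (b := b))
  rw [map_pow, AlgHom.commutes] at this
  exact this

theorem wy_pow : wy K p a b ^ p = algebraMap K _ b := by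
  have := RingQuot.mkAlgHom_rel K (WRel.yp (K := K) (p := p) (a := a) (b := b))
  rw [map_pow, AlgHom.commutes] at this
  exact this

theorem wxy : wx K p a b * wy K p a b = wy K p a b * wx K p a b + 1 := by
  have := RingQuot.mkAlgHom_rel K (WRel.xy (K := K) (p := p) (a := a) (b := b))
  rw [map_mul, map_add, map_mul, map_one] at this
  exact this

section lift

variable {B : Type v} [Ring B] [Algebra K B] (x y : B) (hx : x ^ p = algebraMap K B a)
  (hy : y ^ p = algebraMap K B b) (hxy : x * y = y * x + 1)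

/-- universal property -/
def wLift : W K p a b →ₐ[K] B :=
  RingQuot.liftAlgHom K ⟨FreeAlgebra.lift K ![x, y], by
    intro u v h
    cases h with
    | xp => simpa using hx
    | yp => simpa using hy
    | xy => simpa using hxy⟩

theorem wLift_x : wLift x y hx hy hxy (wx K p a b) = x := by
  unfold wLift wx
  erw [RingQuot.liftAlgHom_mkAlgHom_apply]
  simp

theorem wLift_y : wLift x y hx hy hxy (wy K p a b) = y := by
  unfold wLift wy
  erw [RingQuot.liftAlgHom_mkAlgHom_apply]
  simp

end lift

theorem w_adjoin : Algebra.adjoin K {wx K p a b, wy K p a b} = ⊤ := by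
  have h1 : Algebra.adjoin K (Set.range (FreeAlgebra.ι K : Fin 2 → FreeAlgebra K (Fin 2))) = ⊤ :=
    FreeAlgebra.adjoin_range_ι K (Fin 2)
  have h2 := congrArg (Subalgebra.map (RingQuot.mkAlgHom K (WRel K p a b))) h1
  rw [AlgHom.map_adjoin, Algebra.map_top, (AlgHom.range_eq_top _).2 (RingQuot.mkAlgHom_surjective K _)] at h2
  rw [eq_top_iff]
  change (⊤ : Subalgebra K (RingQuot (WRel K p a b))) ≤ _
  rw [← h2]
  apply Algebra.adjoin_mono
  rintro _ ⟨_, ⟨i, rfl⟩, rfl⟩
  fin_cases i
  · exact Or.inl rfl
  · exact Or.inr rfl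

section rep

variable (L : Type v) [Field L] (p) [Fact p.Prime] [CharP L p] (β : L)

open Polynomial

/-- the ideal of `L[X]` generated by `X^p - β`, as a subspace -/
def Ib : Submodule L L[X] := (Ideal.span {(X ^ p - C β : L[X])}).restrictScalars L

theorem der_mem (f : L[X]) (hf : f ∈ Ib p L β) : derivative f ∈ Ib p L β := by
  unfold Ib at hf ⊢
  rw [Submodule.restrictScalars_mem, Ideal.mem_span_singleton] at hf ⊢
  obtain ⟨g, rfl⟩ := hf
  refine ⟨derivative g, ?_⟩
  rw [derivative_mul, derivative_sub, derivative_X_pow, derivative_C, CharP.cast_eq_zero]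
  simp

/-- multiplication by `X` -/
def mX : L[X] →ₗ[L] L[X] := LinearMap.mulLeft L X

theorem mX_mem (f : L[X]) (hf : f ∈ Ib p L β) : mX L f ∈ Ib p L β := by
  unfold Ib at hf ⊢
  rw [Submodule.restrictScalars_mem] at hf ⊢
  exact Ideal.mul_mem_left _ _ hf

/-- the space `L[X]/(X^p - β)` -/
abbrev Mb : Type v := L[X] ⧸ Ib p L β

/-- derivative -/
def DD : Module.End L (Mb p L β) := (Ib p L β).mapQ (Ib p L β) derivative (der_mem p L β)

/-- multiplication by `X` -/
def TT : Module.End L (Mb p L β) := (Ib p L β).mapQ (Ib p L β) (mX L) (mX_mem p L β)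

theorem DDTT : DD p L β * TT p L β = TT p L β * DD p L β + 1 := by
  apply LinearMap.ext
  intro z
  obtain ⟨f, rfl⟩ := Submodule.Quotient.mk_surjective _ z
  have h1 : (DD p L β * TT p L β) (Submodule.Quotient.mk f) =
    (Submodule.Quotient.mk (derivative (X * f)) : Mb p L β) := rfl
  have h2 : (TT p L β * DD p L β + 1) (Submodule.Quotient.mk f) =
    (Submodule.Quotient.mk (X * derivative f) + Submodule.Quotient.mk f : Mb p L β) := rfl
  rw [h1, h2, ← Submodule.Quotient.mk_add, derivative_mul, derivative_X, one_mul, add_comm]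

theorem DD_mk (f : L[X]) (n : ℕ) : (DD p L β ^ n) (Submodule.Quotient.mk f) =
    Submodule.Quotient.mk (derivative^[n] f) := by
  induction n with
  | zero => rfl
  | succ n ih => rw [pow_succ', Module.End.mul_apply, ih, Function.iterate_succ_apply']; rfl

theorem TT_mk (f : L[X]) (n : ℕ) : (TT p L β ^ n) (Submodule.Quotient.mk f) =
    Submodule.Quotient.mk (X ^ n * f) := by
  induction n with
  | zero => simp
  | succ n ih =>
    rw [pow_succ', Module.End.mul_apply, ih, pow_succ', mul_assoc]
    rfl

theorem iter_der (f : L[X]) : derivative^[p] f = 0 := by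
  have hp : ((p.factorial : ℕ) : L[X]) = 0 := by
    rw [CharP.cast_eq_zero_iff L[X] p]
    exact Nat.dvd_factorial (Fact.out : p.Prime).pos le_rfl
  rw [Polynomial.iterate_derivative_eq_factorial_smul_sum, nsmul_eq_mul, hp, zero_mul]

theorem DDp : DD p L β ^ p = 0 := by
  apply LinearMap.ext
  intro z
  obtain ⟨f, rfl⟩ := Submodule.Quotient.mk_surjective _ z
  rw [DD_mk, iter_der, Submodule.Quotient.mk_zero, LinearMap.zero_apply]

theorem TTp : TT p L β ^ p = algebraMap L _ β := by
  apply LinearMap.ext
  intro z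
  obtain ⟨f, rfl⟩ := Submodule.Quotient.mk_surjective _ z
  rw [TT_mk, Module.algebraMap_end_apply, ← Submodule.Quotient.mk_smul, Submodule.Quotient.eq]
  unfold Ib
  rw [Submodule.restrictScalars_mem, Ideal.mem_span_singleton]
  exact ⟨f, by rw [smul_eq_C_mul]; ring⟩

end rep

end Pool.Agent.W5h91.WF
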