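import Mathlib
import Pool.Agent.W5h91.WF.B
import Pool.Agent.H552R3.SymBr

/-! The algebras `W(a,b)` are central simple of dimension `p^2`; their classes in the Brauer group. -/

set_option autoImplicit false
set_option linter.all false

open scoped TensorProduct

noncomputable section

namespace Pool.Agent.W5h91.WF

open Pool.Agent.Helper18.Br Pool.Agent.H552R3.SymBr

universe u v

section fin

variable (L : Type v) [Field L] (p : ℕ) [Fact p.Prime] [CharP L p] (β : L)

open Polynomial

theorem finrank_Mb : Module.finrank L (Mb p L β) = p ∧ Module.Finite L (Mb p L β) := by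
  have hm : (X ^ p - C β : L[X]).Monic := monic_X_pow_sub_C β (Fact.out : p.Prime).ne_zero
  have e : Mb p L β ≃ₗ[L] AdjoinRoot (X ^ p - C β : L[X]) :=
    Submodule.Quotient.restrictScalarsEquiv L (Ideal.span {(X ^ p - C β : L[X])})
  haveI : Module.Finite L (AdjoinRoot (X ^ p - C β : L[X])) :=
    (AdjoinRoot.powerBasis' hm).finite
  refine ⟨?_, Module.Finite.equiv e.symm⟩
  rw [e.finrank_eq, (AdjoinRoot.powerBasis' hm).finrank, AdjoinRoot.powerBasis'_dim, natDegree_X_pow_sub_C]

instance : Module.Finite L (Mb p L β) := (finrank_Mb L p β).2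

instance : Nontrivial (Mb p L β) := by
  apply Module.nontrivial_of_finrank_pos (R := L)
  rw [(finrank_Mb L p β).1]
  exact (Fact.out : p.Prime).pos

end fin

variable {K : Type u} [Field K] {p : ℕ} [hpp : Fact p.Prime] [hcp : CharP K p]

theorem charP_alg (A : Type v) [Ring A] [Algebra K A] [Nontrivial A] : CharP A p :=
  charP_of_injective_algebraMap (FaithfulSMul.algebraMap_injective K A) p

instance w_nontrivial (a b : K) : Nontrivial (W K p a b) := by
  let L := AlgebraicClosure K
  haveI : CharP L p := charP_of_injective_algebraMap (algebraMap K L).injective p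
  obtain ⟨α, hα⟩ := IsAlgClosed.exists_pow_nat_eq (algebraMap K L a) (Fact.out : p.Prime).pos
  let B := Module.End L (Mb p L (algebraMap K L b))
  haveI : CharP B p := charP_of_injective_algebraMap (FaithfulSMul.algebraMap_injective L B) p
  letI : Algebra K B := Algebra.compHom B (algebraMap K L)
  have hal : ∀ c : K, algebraMap K B c = algebraMap L B (algebraMap K L c) := fun c => rfl
  let f : W K p a b →ₐ[K] B := wLift (DD p L (algebraMap K L b) + algebraMap L B α)
    (TT p L (algebraMap K L b))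
    (by
      rw [add_pow_char_of_commute _ ((Algebra.commutes α _).symm), DDp, zero_add, hal, ← map_pow, hα])
    (by rw [TTp, hal])
    (by
      rw [add_mul, mul_add, DDTT, Algebra.commutes]
      abel)
  refine ⟨⟨0, 1, fun h => ?_⟩⟩
  have h1 := congrArg f h
  rw [map_zero, map_one] at h1
  exact zero_ne_one h1

theorem w_csa (a b : K) : Algebra.IsCentral K (W K p a b) ∧ IsSimpleRing (W K p a b) ∧
    FiniteDimensional K (W K p a b) ∧ Module.finrank K (W K p a b) = p ^ 2 :=
  csa p wxy wx_pow wy_pow w_adjoin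

instance (a b : K) : Algebra.IsCentral K (W K p a b) := (w_csa a b).1
instance (a b : K) : IsSimpleRing (W K p a b) := (w_csa a b).2.1
instance (a b : K) : FiniteDimensional K (W K p a b) := (w_csa a b).2.2.1

/-- the class of `W(a,b)` -/
def wcl (p : ℕ) [Fact p.Prime] [CharP K p] (a b : K) : BrauerGroup.{u, u} K := brauerClass K (W K p a b)

theorem wcl_eq_of_alg {A : Type u} [Ring A] [Algebra K A] [Algebra.IsCentral K A] [IsSimpleRing A]
    [FiniteDimensional K A] (hA : Module.finrank K A = p ^ 2) {a b : K} (x y : A)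
    (hx : x ^ p = algebraMap K A a) (hy : y ^ p = algebraMap K A b) (hxy : x * y = y * x + 1) :
    brauerClass K A = wcl p a b := by
  obtain ⟨e⟩ := equiv_of_hom (wLift x y hx hy hxy) (by rw [(w_csa a b).2.2.2, hA])
  exact (brauerClass_eq_iff.2 (BrEq.of_equiv e)).symm

theorem wcl_eq_of_gens {a b a' b' : K} (x y : W K p a b)
    (hx : x ^ p = algebraMap K _ a') (hy : y ^ p = algebraMap K _ b') (hxy : x * y = y * x + 1) :
    wcl p a b = wcl p a' b' := wcl_eq_of_alg (w_csa a b).2.2.2 x y hx hy hxy

theorem wcl_zero (b : K) : wcl p 0 b = 1 := by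
  obtain ⟨e⟩ := equiv_of_hom (wLift (a := (0 : K)) (b := b) (DD p K b) (TT p K b)
    (by rw [DDp, map_zero]) (TTp p K b) (DDTT p K b)) (by
      rw [(w_csa 0 b).2.2.2, Module.finrank_linearMap, (finrank_Mb K p b).1, sq])
  have hp : p ≠ 0 := (Fact.out : p.Prime).ne_zero
  let bs : Module.Basis (Fin p) K (Mb p K b) := Module.finBasisOfFinrankEq K _ (finrank_Mb K p b).1
  exact brauerClass_eq_one_iff.2 (BrEq.of_matrix hp (e.trans (algEquivMatrix bs)))

theorem commute_gens {a b a' b' : K} {C : Type v} [Ring C] [Algebra K C]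
    (f : W K p a b →ₐ[K] C) (g : W K p a' b' →ₐ[K] C)
    (h1 : Commute (f (wx K p a b)) (g (wx K p a' b')))
    (h2 : Commute (f (wx K p a b)) (g (wy K p a' b')))
    (h3 : Commute (f (wy K p a b)) (g (wx K p a' b')))
    (h4 : Commute (f (wy K p a b)) (g (wy K p a' b'))) :
    ∀ s t, Commute (f s) (g t) := by
  have hA : ∀ (z : C), Commute (f (wx K p a b)) z → Commute (f (wy K p a b)) z → ∀ s, Commute (f s) z := by
    intro z hz1 hz2 s
    have hs : s ∈ Algebra.adjoin K {wx K p a b, wy K p a b} := by rw [w_adjoin]; trivial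
    induction hs using Algebra.adjoin_induction with
    | mem s hs =>
      rcases hs with rfl | hs
      · exact hz1
      · rw [Set.mem_singleton_iff] at hs; subst hs; exact hz2
    | algebraMap c => rw [AlgHom.commutes]; exact Algebra.commutes _ _
    | add s t _ _ hs ht => rw [map_add]; exact hs.add_left ht
    | mul s t _ _ hs ht => rw [map_mul]; exact hs.mul_left ht
  have hB : ∀ (z : C), Commute z (g (wx K p a' b')) → Commute z (g (wy K p a' b')) → ∀ t, Commute z (g t) := by
    intro z hz1 hz2 s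
    have hs : s ∈ Algebra.adjoin K {wx K p a' b', wy K p a' b'} := by rw [w_adjoin]; trivial
    induction hs using Algebra.adjoin_induction with
    | mem s hs =>
      rcases hs with rfl | hs
      · exact hz1
      · rw [Set.mem_singleton_iff] at hs; subst hs; exact hz2
    | algebraMap c => rw [AlgHom.commutes]; exact (Algebra.commutes _ _).symm
    | add s t _ _ hs ht => rw [map_add]; exact hs.add_right ht
    | mul s t _ _ hs ht => rw [map_mul]; exact hs.mul_right ht
  intro s t
  exact hB _ (hA _ h1 h3 s) (hA _ h2 h4 s) t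

/-- relation between a pair of elements -/
def Rel (p : ℕ) {C : Type u} [Ring C] [Algebra K C] (a b : K) (x y : C) : Prop :=
  x ^ p = algebraMap K C a ∧ y ^ p = algebraMap K C b ∧ x * y = y * x + 1

/-- two pairs of elements commute with each other -/
def Com {C : Type u} [Ring C] (x y x' y' : C) : Prop :=
  Commute x x' ∧ Commute x y' ∧ Commute y x' ∧ Commute y y'

theorem wcl_merge (a b c d : K) : ∃ (C : Type u) (_ : Ring C) (_ : Algebra K C) (_ : Nontrivial C)
    (P Q P' Q' : C), Rel p a b P Q ∧ Rel p c d P' Q' ∧ Com P Q P' Q' ∧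
      ∀ (a' b' c' d' : K) (U V X Y : C), Rel p a' b' U V → Rel p c' d' X Y → Com U V X Y →
        wcl p a b * wcl p c d = wcl p a' b' * wcl p c' d' := by
  haveI hs : ∀ a b c d : K, IsSimpleRing (W K p a b ⊗[K] W K p c d) := fun a b c d => isSimple_tensor
  haveI hce : ∀ a b c d : K, Algebra.IsCentral K (W K p a b ⊗[K] W K p c d) := fun a b c d => isCentral_tensor
  have hal : ∀ (e : K), algebraMap K (W K p a b ⊗[K] W K p c d) e =
      (algebraMap K (W K p a b) e) ⊗ₜ[K] (1 : W K p c d) := by
    intro e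
    rw [Algebra.TensorProduct.algebraMap_apply]
  have hal' : ∀ (e : K), algebraMap K (W K p a b ⊗[K] W K p c d) e =
      (1 : W K p a b) ⊗ₜ[K] (algebraMap K (W K p c d) e) := by
    intro e
    rw [hal, Algebra.algebraMap_eq_smul_one, Algebra.algebraMap_eq_smul_one, TensorProduct.smul_tmul]
  refine ⟨W K p a b ⊗[K] W K p c d, inferInstance, inferInstance, inferInstance,
    wx K p a b ⊗ₜ 1, wy K p a b ⊗ₜ 1, 1 ⊗ₜ wx K p c d, 1 ⊗ₜ wy K p c d, ⟨?_, ?_, ?_⟩, ⟨?_, ?_, ?_⟩,
    ⟨?_, ?_, ?_, ?_⟩, ?_⟩
  · rw [Algebra.TensorProduct.tmul_pow, wx_pow, one_pow, hal]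
  · rw [Algebra.TensorProduct.tmul_pow, wy_pow, one_pow, hal]
  · rw [Algebra.TensorProduct.tmul_mul_tmul, Algebra.TensorProduct.tmul_mul_tmul, wxy, TensorProduct.add_tmul,
      one_mul, Algebra.TensorProduct.one_def]
  · rw [Algebra.TensorProduct.tmul_pow, wx_pow, one_pow, hal']
  · rw [Algebra.TensorProduct.tmul_pow, wy_pow, one_pow, hal']
  · rw [Algebra.TensorProduct.tmul_mul_tmul, Algebra.TensorProduct.tmul_mul_tmul, wxy, TensorProduct.tmul_add,
      one_mul, Algebra.TensorProduct.one_def]
  · rw [Commute, SemiconjBy, Algebra.TensorProduct.tmul_mul_tmul, Algebra.TensorProduct.tmul_mul_tmul,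
      one_mul, mul_one, one_mul, mul_one]
  · rw [Commute, SemiconjBy, Algebra.TensorProduct.tmul_mul_tmul, Algebra.TensorProduct.tmul_mul_tmul,
      one_mul, mul_one, one_mul, mul_one]
  · rw [Commute, SemiconjBy, Algebra.TensorProduct.tmul_mul_tmul, Algebra.TensorProduct.tmul_mul_tmul,
      one_mul, mul_one, one_mul, mul_one]
  · rw [Commute, SemiconjBy, Algebra.TensorProduct.tmul_mul_tmul, Algebra.TensorProduct.tmul_mul_tmul,
      one_mul, mul_one, one_mul, mul_one]
  · rintro a' b' c' d' U V X Y ⟨hU, hV, hUV⟩ ⟨hX, hY, hXY⟩ ⟨h1, h2, h3, h4⟩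
    let f : W K p a' b' →ₐ[K] (W K p a b ⊗[K] W K p c d) := wLift U V hU hV hUV
    let g : W K p c' d' →ₐ[K] (W K p a b ⊗[K] W K p c d) := wLift X Y hX hY hXY
    have hfg : ∀ s t, Commute (f s) (g t) := commute_gens f g
      (by rw [wLift_x, wLift_x]; exact h1) (by rw [wLift_x, wLift_y]; exact h2)
      (by rw [wLift_y, wLift_x]; exact h3) (by rw [wLift_y, wLift_y]; exact h4)
    obtain ⟨e⟩ := equiv_of_hom (Algebra.TensorProduct.lift f g hfg) (by
      rw [Module.finrank_tensorProduct, Module.finrank_tensorProduct, (w_csa a b).2.2.2, (w_csa c d).2.2.2,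
        (w_csa a' b').2.2.2, (w_csa c' d').2.2.2])
    have k1 : wcl p a b * wcl p c d = brauerClass K (W K p a b ⊗[K] W K p c d) :=
      brauerClass_mul_eq (BrEq.of_equiv AlgEquiv.refl)
    have k2 : wcl p a' b' * wcl p c' d' = brauerClass K (W K p a b ⊗[K] W K p c d) :=
      brauerClass_mul_eq (BrEq.of_equiv e)
    rw [k1, k2]

end Pool.Agent.W5h91.WF
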