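import Mathlib
import Pool.Agent.W5h91.WF.C

/-! Identities between the classes of the algebras `W(a,b)`. -/

set_option autoImplicit false
set_option linter.all false

open scoped TensorProduct

noncomputable section

namespace Pool.Agent.W5h91.WF

open Pool.Agent.Helper18.Br Pool.Agent.H552R3.SymBr

universe u v

variable {K : Type u} [Field K] {p : ℕ} [hpp : Fact p.Prime] [hcp : CharP K p]

section desc

open Polynomial

theorem desc_eq : descPochhammer K p = X ^ p - X := by
  have hp := (Fact.out : p.Prime)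
  have hdeg1 : (descPochhammer K p).natDegree = p := descPochhammer_natDegree K p
  have hm1 : (descPochhammer K p).Monic := monic_descPochhammer K p
  have hm2 : (X ^ p - X : K[X]).Monic := monic_X_pow_sub (by
    rw [degree_X]; exact_mod_cast hp.one_lt)
  have hdeg2 : (X ^ p - X : K[X]).natDegree = p := FiniteField.X_pow_card_sub_X_natDegree_eq K hp.one_lt
  rw [← sub_eq_zero]
  have hinj : Function.Injective (fun i : Fin p => ((i : ℕ) : K)) := by
    intro i j hij
    have h1 : ((i : ℕ) : K) = ((j : ℕ) : K) := hij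
    rw [CharP.natCast_eq_natCast K p] at h1
    have h2 : (i : ℕ) % p = (j : ℕ) % p := h1
    rw [Nat.mod_eq_of_lt i.2, Nat.mod_eq_of_lt j.2] at h2
    exact Fin.ext h2
  apply Polynomial.eq_zero_of_natDegree_lt_card_of_eval_eq_zero _ hinj
  · intro i
    rw [eval_sub, descPochhammer_eval_coe_nat_of_lt i.2, eval_sub, eval_pow, eval_X, zero_sub, neg_eq_zero,
      sub_eq_zero]
    exact map_natCast (frobenius K p) i
  · rw [Fintype.card_fin]
    have h1 : (descPochhammer K p - (X ^ p - X)).degree < (descPochhammer K p).degree := by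
      apply degree_sub_lt
      · rw [degree_eq_natDegree hm1.ne_zero, degree_eq_natDegree hm2.ne_zero, hdeg1, hdeg2]
      · exact hm1.ne_zero
      · rw [hm1.leadingCoeff, hm2.leadingCoeff]
    rw [degree_eq_natDegree hm1.ne_zero, hdeg1] at h1
    rcases eq_or_ne (descPochhammer K p - (X ^ p - X)) 0 with h0 | h0
    · rw [h0, natDegree_zero]; exact hp.pos
    · rwa [natDegree_lt_iff_degree_lt h0]

theorem yx_desc {A : Type v} [Ring A] [Algebra K A] {x y : A} (h : x * y = y * x + 1) (n : ℕ) :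
    y ^ n * x ^ n = aeval (y * x) (descPochhammer K n) := by
  induction n with
  | zero => simp
  | succ n ih =>
    have h1 : y ^ n * (y * x) = (y * x - (n : A)) * y ^ n := by
      rw [sub_mul, mul_assoc y x, comm_pow' h, mul_add]
      have h2 : y * ((n : A) * y ^ (n - 1)) = (n : A) * y ^ n := by
        rw [← mul_assoc, ← (Nat.cast_commute n y).eq, mul_assoc]
        cases n with
        | zero => simp
        | succ n => rw [Nat.add_sub_cancel, ← pow_succ']
      rw [h2, add_sub_cancel_right, ← mul_assoc, ← mul_assoc, ← pow_succ, ← pow_succ']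
    rw [descPochhammer_succ_right, mul_comm, map_mul, ← ih, map_sub, aeval_X, map_natCast, ← mul_assoc,
      ← h1, pow_succ, pow_succ' x]
    simp only [mul_assoc]

include K in
/-- `(yx)^p - yx = y^p x^p` if `xy - yx = 1` -/
theorem yx_pow {A : Type v} [Ring A] [Algebra K A] {x y : A} (h : x * y = y * x + 1) :
    (y * x) ^ p - y * x = y ^ p * x ^ p := by
  rw [yx_desc (K := K) h, desc_eq]
  simp

end desc

theorem neg_pow_char {C : Type v} [Ring C] [Algebra K C] (y : C) {b : K} (h : y ^ p = algebraMap K C b) :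
    (-y) ^ p = algebraMap K C (-b) := by
  rw [← neg_one_smul K y, smul_pow, neg_one_pow_char K p, h, neg_one_smul, map_neg]

theorem wcl_swap (a b : K) : wcl p a b = wcl p (-b) a :=
  wcl_eq_of_gens (-wy K p a b) (wx K p a b) (neg_pow_char _ wy_pow) wx_pow (neg_comm wxy)

theorem wcl_zero_right (a : K) : wcl p a 0 = 1 := by
  rw [wcl_swap, neg_zero, wcl_zero]

theorem wcl_shift (a b c : K) : wcl p (a + c ^ p) b = wcl p a b := by
  haveI := charP_alg (K := K) (p := p) (W K p a b)
  refine (wcl_eq_of_gens (wx K p a b + algebraMap K _ c) (wy K p a b) ?_ wy_pow ?_).symm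
  · rw [add_pow_char_of_commute _ (Algebra.commutes c _).symm, wx_pow, ← map_pow, ← map_add]
  · rw [add_mul, mul_add, wxy, Algebra.commutes]
    abel

theorem wcl_pow_left (b c : K) : wcl p (c ^ p) b = 1 := by
  have := wcl_shift (p := p) 0 b c
  rw [zero_add, wcl_zero] at this
  exact this

theorem wcl_add_left (a a' b : K) : wcl p (a + a') b = wcl p a b * wcl p a' b := by
  obtain ⟨C, _, _, _, P, Q, P', Q', ⟨hP, hQ, hPQ⟩, ⟨hP', hQ', hPQ'⟩, ⟨c1, c2, c3, c4⟩, key⟩ :=
    wcl_merge (p := p) a b a' b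
  haveI := charP_alg (K := K) (p := p) C
  have h := key (a + a') b a' 0 (P + P') Q P' (Q' - Q)
    ⟨by rw [add_pow_char_of_commute _ c1, hP, hP', map_add], hQ, by
      rw [add_mul, mul_add, hPQ, c3.symm.eq]; abel⟩
    ⟨hP', by rw [sub_pow_char_of_commute _ c4.symm, hQ, hQ', sub_self, map_zero], by
      rw [mul_sub, sub_mul, hPQ', c3.symm.eq]; abel⟩
    ⟨c1.add_left (Commute.refl _), by
      rw [Commute, SemiconjBy, add_mul, mul_sub, mul_sub, mul_add, sub_mul, sub_mul, hPQ, hPQ', c2.eq, c3.symm.eq]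
      abel, c3, c4.sub_right (Commute.refl _)⟩
  rw [h, wcl_zero_right, mul_one]

theorem wcl_add_right (a b b' : K) : wcl p a (b + b') = wcl p a b * wcl p a b' := by
  rw [wcl_swap a b, wcl_swap a b', wcl_swap a (b + b'), neg_add, wcl_add_left]

theorem wcl_neg_left (a b : K) : wcl p (-a) b = (wcl p a b)⁻¹ := by
  rw [eq_inv_iff_mul_eq_one, ← wcl_add_left, neg_add_cancel, wcl_zero]

theorem wcl_neg_right (a b : K) : wcl p a (-b) = (wcl p a b)⁻¹ := by
  rw [eq_inv_iff_mul_eq_one, ← wcl_add_right, neg_add_cancel, wcl_zero_right]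

theorem wcl_anti (a b : K) : wcl p a b = (wcl p b a)⁻¹ := by
  rw [wcl_swap, wcl_neg_left]

theorem wcl_pow_p (a b : K) : wcl p a b ^ p = 1 := by
  have h : ∀ n : ℕ, wcl p a b ^ n = wcl p ((n : K) * a) b := by
    intro n
    induction n with
    | zero => simp [wcl_zero]
    | succ n ih => rw [pow_succ, ih, ← wcl_add_left]; congr 1; push_cast; ring
  rw [h, CharP.cast_eq_zero, zero_mul, wcl_zero]

theorem wcl_pow_right (a c : K) : wcl p a (c ^ p) = 1 := by
  rw [wcl_anti, wcl_pow_left, inv_one]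

/-- `w(λ^p a, b) = w(a, λ^p b)` -/
theorem wcl_bal (l a b : K) : wcl p (l ^ p * a) b = wcl p a (l ^ p * b) := by
  rcases eq_or_ne l 0 with rfl | hl
  · rw [zero_pow (Fact.out : p.Prime).ne_zero, zero_mul, zero_mul, wcl_zero, wcl_zero_right]
  · have hlp : l ^ p ≠ 0 := pow_ne_zero _ hl
    refine wcl_eq_of_gens (l⁻¹ • wx K p (l ^ p * a) b) (l • wy K p (l ^ p * a) b) ?_ ?_ ?_
    · rw [smul_pow, wx_pow, Algebra.smul_def, ← map_mul, inv_pow, inv_mul_cancel_left₀ hlp]
    · rw [smul_pow, wy_pow, Algebra.smul_def, ← map_mul]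
    · rw [smul_mul_smul_comm, smul_mul_smul_comm, inv_mul_cancel₀ hl, mul_inv_cancel₀ hl, one_smul, one_smul, wxy]

theorem wcl_self (a : K) : wcl p a a = 1 := by
  have hp := (Fact.out : p.Prime)
  rcases hp.eq_two_or_odd' with h2 | hodd
  · subst h2
    haveI := charP_alg (K := K) (p := 2) (W K 2 a a)
    have hx := wx_pow (K := K) (p := 2) (a := a) (b := a)
    have hy := wy_pow (K := K) (p := 2) (a := a) (b := a)
    have hxy := wxy (K := K) (p := 2) (a := a) (b := a)
    rw [wcl_eq_of_gens (p := 2) (a' := 0) (b' := a) (wx K 2 a a + wy K 2 a a + 1) (wy K 2 a a) ?_ hy ?_, wcl_zero]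
    · have h2 : ∀ z : W K 2 a a, z + z = 0 := fun z => CharTwo.add_self_eq_zero z
      rw [map_zero]
      rw [sq] at hx hy ⊢
      have e : (wx K 2 a a + wy K 2 a a + 1) * (wx K 2 a a + wy K 2 a a + 1) =
        (wx K 2 a a * wx K 2 a a + wy K 2 a a * wy K 2 a a) + wx K 2 a a * wy K 2 a a +
          wy K 2 a a * wx K 2 a a + (wx K 2 a a + wx K 2 a a) + (wy K 2 a a + wy K 2 a a) + 1 := by
        noncomm_ring
      rw [e, hx, hy, hxy, h2, h2, h2, zero_add, add_zero, add_zero]
      calc wy K 2 a a * wx K 2 a a + 1 + wy K 2 a a * wx K 2 a a + 1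
          = (wy K 2 a a * wx K 2 a a + wy K 2 a a * wx K 2 a a) + (1 + 1) := by abel
        _ = 0 := by rw [h2, h2, add_zero]
    · rw [add_mul, add_mul, hxy]
      noncomm_ring
  · have h1 : wcl p a a * wcl p a a = 1 := by
      nth_rewrite 1 [wcl_anti]
      rw [inv_mul_cancel]
    have h3 := wcl_pow_p (p := p) a a
    obtain ⟨m, hm⟩ := hodd
    generalize wcl p a a = z at h1 h3 ⊢
    rw [hm, pow_succ, pow_mul, sq, h1, one_pow, one_mul] at h3
    exact h3

end Pool.Agent.W5h91.WF
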