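import Mathlib
import Pool.Agent.W5h91.WF.D

/-! The Leibniz rule for the classes `w(a,b)`, and the subfield of second arguments reached by given ones. -/

set_option autoImplicit false
set_option linter.all false

open scoped TensorProduct

noncomputable section

namespace Pool.Agent.W5h91.WF

open Pool.Agent.Helper18.Br Pool.Agent.H552R3.SymBr

universe u v

variable {K : Type u} [Field K] {p : ℕ} [hpp : Fact p.Prime] [hcp : CharP K p]

theorem wcl_leibniz_aux (a b c : K) (hb : b ≠ 0) : wcl p (a * b) c * wcl p (a * c) b = wcl p a (b * c) := by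
  have hp := (Fact.out : p.Prime)
  obtain ⟨C, _, _, _, P, Q, P', Q', ⟨hP, hQ, hPQ⟩, ⟨hP', hQ', hPQ'⟩, ⟨c1, c2, c3, c4⟩, key⟩ :=
    wcl_merge (p := p) (a * b) c (a * c) b
  haveI := charP_alg (K := K) (p := p) C
  -- inverse of Q'
  obtain ⟨R, hR⟩ : ∃ R : C, R = b⁻¹ • Q' ^ (p - 1) := ⟨_, rfl⟩
  have e1 : Q' * R = 1 := by
    rw [hR, mul_smul_comm, ← pow_succ', Nat.sub_add_cancel hp.one_le, hQ', Algebra.smul_def, ← map_mul,
      inv_mul_cancel₀ hb, map_one]
  have e2 : R * Q' = 1 := by
    rw [hR, smul_mul_assoc, ← pow_succ, Nat.sub_add_cancel hp.one_le, hQ', Algebra.smul_def, ← map_mul,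
      inv_mul_cancel₀ hb, map_one]
  have cPR : Commute P R := by rw [hR]; exact (c2.pow_right _).smul_right _
  have cQR : Commute Q R := by rw [hR]; exact (c4.pow_right _).smul_right _
  have hRp : R ^ p = algebraMap K C b⁻¹ := by
    have h1 : Q' ^ p * R ^ p = 1 := by
      rw [← (show Commute Q' R by rw [Commute, SemiconjBy, e1, e2]).mul_pow, e1, one_pow]
    calc R ^ p = algebraMap K C b⁻¹ * (Q' ^ p * R ^ p) := by
          rw [hQ', ← mul_assoc, ← map_mul, inv_mul_cancel₀ hb, map_one, one_mul]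
      _ = _ := by rw [h1, mul_one]
  have eP'R : P' * R = R * P' - R * R := by
    have h1 : R * (P' * Q') * R = R * (Q' * P' + 1) * R := by rw [hPQ']
    have h2 : R * (P' * Q') * R = R * P' := by
      rw [mul_assoc, mul_assoc, e1, mul_one]
    have h3 : R * (Q' * P' + 1) * R = P' * R + R * R := by
      rw [mul_add, mul_one, add_mul, ← mul_assoc, e2, one_mul]
    rw [h2, h3] at h1
    rw [h1, add_sub_cancel_right]
  obtain ⟨X, hX⟩ : ∃ X : C, X = P' - P * Q * R := ⟨_, rfl⟩
  have hXY1 : Q' * X = Q' * P' - P * Q := by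
    rw [hX, mul_sub]
    congr 1
    rw [← mul_assoc, ← mul_assoc, c2.symm.eq, mul_assoc P Q' Q, c4.symm.eq, ← mul_assoc, mul_assoc (P * Q), e1,
      mul_one]
  have hXY2 : X * Q' = P' * Q' - P * Q := by
    rw [hX, sub_mul]
    congr 1
    rw [mul_assoc, e2, mul_one]
  have hXY : X * Q' = Q' * X + 1 := by
    rw [hXY1, hXY2, hPQ']; abel
  have hXp : X ^ p = 0 := by
    have h1 := yx_pow (K := K) (p := p) hXY
    have h2 := yx_pow (K := K) (p := p) hPQ
    have h3 := yx_pow (K := K) (p := p) hPQ'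
    have c5 : Commute (Q' * P') (P * Q) :=
      ((c2.symm.mul_right c4.symm).mul_left (c1.symm.mul_right c3.symm))
    have h4 : (P * Q) ^ p - P * Q = Q ^ p * P ^ p := by
      rw [hPQ, add_pow_char_of_commute _ (Commute.one_right _), one_pow, ← h2]
      abel
    rw [hXY1, sub_pow_char_of_commute _ c5] at h1
    have h5 : (Q' * P') ^ p - (P * Q) ^ p - (Q' * P' - P * Q) =
        ((Q' * P') ^ p - Q' * P') - ((P * Q) ^ p - P * Q) := by abel
    rw [h5, h3, h4, hQ', hP', hQ, hP, ← map_mul, ← map_mul, ← map_sub] at h1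
    have h6 : b * (a * c) - c * (a * b) = 0 := by ring
    rw [h6, map_zero, ← Algebra.smul_def] at h1
    exact (smul_eq_zero.1 h1.symm).resolve_left hb
  have hUp : (P * R) ^ p = algebraMap K C a := by
    rw [cPR.mul_pow, hP, hRp, ← map_mul, mul_assoc, mul_inv_cancel₀ hb, mul_one]
  have hVp : (Q * Q') ^ p = algebraMap K C (b * c) := by
    rw [c4.mul_pow, hQ, hQ', ← map_mul, mul_comm]
  have hUV : (P * R) * (Q * Q') = (Q * Q') * (P * R) + 1 := by
    have h1 : (P * R) * (Q * Q') = P * Q := by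
      rw [mul_assoc, ← mul_assoc R, ← cQR.eq, mul_assoc Q, e2, mul_one]
    have h2 : (Q * Q') * (P * R) = Q * P := by
      rw [mul_assoc, ← mul_assoc Q', ← c2.eq, mul_assoc P, e1, mul_one]
    rw [h1, h2, hPQ]
  have cUY : Commute (P * R) Q' := by
    rw [Commute, SemiconjBy, mul_assoc, e2, ← mul_assoc, ← c2.eq, mul_assoc, e1]
  have cVY : Commute (Q * Q') Q' := c4.mul_left (Commute.refl _)
  have cVX : Commute (Q * Q') X := by
    have h1 : (Q * Q') * X = Q * (Q' * P') - Q * (P * Q) := by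
      rw [mul_assoc, hXY1, mul_sub]
    have h2 : X * (Q * Q') = Q * (P' * Q') - P * Q * Q := by
      rw [hX, sub_mul]
      congr 1
      · rw [← mul_assoc, ← c3.eq, mul_assoc]
      · rw [mul_assoc (P * Q) R, ← mul_assoc R, ← cQR.eq, mul_assoc Q, e2, mul_one]
    have h3 : P * Q * Q = Q * (P * Q) + Q := by
      calc P * Q * Q = (Q * P + 1) * Q := by rw [hPQ]
        _ = _ := by noncomm_ring
    rw [Commute, SemiconjBy, h1, h2, hPQ', h3]
    noncomm_ring
  have cUX : Commute (P * R) X := by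
    have h1 : (P * R) * X = P * (R * P') - P * P * Q * (R * R) := by
      rw [hX, mul_sub]
      congr 1
      · rw [mul_assoc]
      · calc P * R * (P * Q * R) = P * (R * (P * Q)) * R := by noncomm_ring
          _ = P * ((P * Q) * R) * R := by rw [← (cPR.mul_left cQR).eq]
          _ = _ := by noncomm_ring
    have h2 : X * (P * R) = P * (P' * R) - P * (Q * P) * (R * R) := by
      rw [hX, sub_mul]
      congr 1
      · rw [← mul_assoc, ← c1.eq, mul_assoc]
      · calc P * Q * R * (P * R) = P * Q * (R * P) * R := by noncomm_ring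
          _ = P * Q * (P * R) * R := by rw [← cPR.eq]
          _ = _ := by noncomm_ring
    have h3 : Q * P = P * Q - 1 := by rw [hPQ, add_sub_cancel_right]
    rw [Commute, SemiconjBy, h1, h2, eP'R, h3]
    noncomm_ring
  have h := key a (b * c) 0 b (P * R) (Q * Q') X Q' ⟨hUp, hVp, hUV⟩
    ⟨by rw [hXp, map_zero], hQ', hXY⟩ ⟨cUX, cUY, cVX, cVY⟩
  rw [h, wcl_zero, mul_one]

/-- Leibniz rule -/
theorem wcl_leibniz (a b c : K) : wcl p a (b * c) = wcl p (a * b) c * wcl p (a * c) b := by
  rcases eq_or_ne b 0 with rfl | hb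
  · rw [zero_mul, mul_zero, wcl_zero_right, wcl_zero, wcl_zero_right, mul_one]
  · exact (wcl_leibniz_aux a b c hb).symm

/-- the elements `b` such that all `w(a,b)` lie in a given subgroup -/
def Sf (p : ℕ) [Fact p.Prime] [CharP K p] (G : Subgroup (BrauerGroup.{u, u} K)) : Subfield K where
  carrier := {b | ∀ a, wcl p a b ∈ G}
  mul_mem' := by
    intro b c hb hc a
    rw [wcl_leibniz]
    exact G.mul_mem (hc _) (hb _)
  one_mem' := by
    intro a
    have := wcl_pow_right (p := p) a 1
    rw [one_pow] at this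
    rw [this]; exact G.one_mem
  add_mem' := by
    intro b c hb hc a
    rw [wcl_add_right]
    exact G.mul_mem (hb _) (hc _)
  zero_mem' := by
    intro a
    rw [wcl_zero_right]; exact G.one_mem
  neg_mem' := by
    intro b hb a
    rw [wcl_neg_right]
    exact G.inv_mem (hb _)
  inv_mem' := by
    intro b hb
    have hmul : ∀ b c : K, (∀ a, wcl p a b ∈ G) → (∀ a, wcl p a c ∈ G) → ∀ a, wcl p a (b * c) ∈ G := by
      intro b c hb hc a
      rw [wcl_leibniz]
      exact G.mul_mem (hc _) (hb _)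
    have hpow : ∀ n : ℕ, ∀ a, wcl p a (b ^ n) ∈ G := by
      intro n
      induction n with
      | zero =>
        intro a
        have := wcl_pow_right (p := p) a 1
        rw [one_pow] at this
        rw [pow_zero, this]; exact G.one_mem
      | succ n ih => rw [pow_succ]; exact hmul _ _ ih hb
    rcases eq_or_ne b 0 with rfl | hb0
    · intro a
      rw [inv_zero, wcl_zero_right]; exact G.one_mem
    · have e : b⁻¹ = b ^ (p - 1) * (b⁻¹) ^ p := by
        obtain ⟨n, hn⟩ : ∃ n, p = n + 1 := ⟨p - 1, by have := (Fact.out : p.Prime).pos; omega⟩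
        rw [hn, Nat.add_sub_cancel, pow_succ, ← mul_assoc, ← mul_pow, mul_inv_cancel₀ hb0, one_pow, one_mul]
      rw [e]
      apply hmul _ _ (hpow _)
      intro a
      rw [wcl_pow_right]; exact G.one_mem

theorem mem_Sf (G : Subgroup (BrauerGroup.{u, u} K)) (b : K) : b ∈ Sf p G ↔ ∀ a, wcl p a b ∈ G := Iff.rfl

/-- the classes `∏ w(a_i, t_i)` -/
def Gt (p : ℕ) [Fact p.Prime] [CharP K p] {e : ℕ} (t : Fin e → K) : Subgroup (BrauerGroup.{u, u} K) where
  carrier := {α | ∃ a : Fin e → K, α = ∏ i, wcl p (a i) (t i)}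
  mul_mem' := by
    rintro _ _ ⟨a, rfl⟩ ⟨b, rfl⟩
    exact ⟨fun i => a i + b i, by rw [← Finset.prod_mul_distrib]; simp only [wcl_add_left]⟩
  one_mem' := ⟨fun _ => 0, by simp [wcl_zero]⟩
  inv_mem' := by
    rintro _ ⟨a, rfl⟩
    exact ⟨fun i => - a i, by rw [← Finset.prod_inv_distrib]; simp only [wcl_neg_left]⟩

theorem Gt_of_closure {e : ℕ} (t : Fin e → K) (b : K)
    (hb : b ∈ Subfield.closure (Set.range (fun c : K => c ^ p) ∪ Set.range t)) (a : K) :
    wcl p a b ∈ Gt p t := by
  have h : Subfield.closure (Set.range (fun c : K => c ^ p) ∪ Set.range t) ≤ Sf p (Gt p t) := by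
    rw [Subfield.closure_le]
    rintro _ (⟨c, rfl⟩ | ⟨i, rfl⟩)
    · intro a
      simp only
      rw [wcl_pow_right]
      exact (Gt p t).one_mem
    · intro a
      refine ⟨fun j => if j = i then a else 0, ?_⟩
      rw [Finset.prod_eq_single i]
      · simp
      · intro j _ hj
        simp [hj, wcl_zero]
      · intro h
        exact absurd (Finset.mem_univ i) h
  exact h hb a

end Pool.Agent.W5h91.WF
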