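import Mathlib
import Pool.Agent.W5h91.WF.E
import Pool.Agent.H552R3.SymIdx

/-! Sums of classes `w(a,b)` with `a, b` in a finite-dimensional space over an algebraically closed field. -/

set_option autoImplicit false
set_option linter.all false

open scoped TensorProduct

noncomputable section

namespace Pool.Agent.W5h91.WF

open Pool.Agent.Helper18.Br Pool.Agent.H552R3.SymBr

universe u v

variable {k : Type v} [Field k] [IsAlgClosed k] {K : Type u} [Field K] [Algebra k K] {p : ℕ} [hpp : Fact p.Prime]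
  [hcp : CharP K p]

theorem wcl_smul (c : k) (a b : K) : wcl p (c • a) b = wcl p a (c • b) := by
  obtain ⟨l, hl⟩ := IsAlgClosed.exists_pow_nat_eq c (Fact.out : p.Prime).pos
  rw [← hl, Algebra.smul_def, Algebra.smul_def, map_pow, wcl_bal]

theorem wcl_line (c d : k) (a : K) : wcl p (c • a) (d • a) = 1 := by
  obtain ⟨l, hl⟩ := IsAlgClosed.exists_pow_nat_eq (c * d) (n := 2) (by norm_num)
  rw [wcl_smul, smul_smul, ← hl, sq, mul_smul, ← wcl_smul, wcl_self]

/-- the group generated by the classes `w(a,b)` with `a, b` in `V` -/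
def GV (p : ℕ) [Fact p.Prime] [CharP K p] (V : Submodule k K) : Subgroup (BrauerGroup.{u, u} K) :=
  Subgroup.closure {γ | ∃ a ∈ V, ∃ b ∈ V, γ = wcl p a b}

theorem GV_split (V V' : Submodule k K) (w : K) (hV : V = Submodule.span k {w} ⊔ V')
    (α : BrauerGroup.{u, u} K) (hα : α ∈ GV p V) :
    ∃ z ∈ V', ∃ β ∈ GV p V', α = wcl p w z * β := by
  induction hα using Subgroup.closure_induction with
  | mem γ hγ =>
    obtain ⟨a, ha, b, hb, rfl⟩ := hγ
    rw [hV, Submodule.mem_sup] at ha hb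
    obtain ⟨a1, ha1, a2, ha2, rfl⟩ := ha
    obtain ⟨b1, hb1, b2, hb2, rfl⟩ := hb
    obtain ⟨c, rfl⟩ := Submodule.mem_span_singleton.1 ha1
    obtain ⟨d, rfl⟩ := Submodule.mem_span_singleton.1 hb1
    refine ⟨c • b2 - d • a2, V'.sub_mem (V'.smul_mem _ hb2) (V'.smul_mem _ ha2), wcl p a2 b2,
      Subgroup.subset_closure ⟨a2, ha2, b2, hb2, rfl⟩, ?_⟩
    rw [wcl_add_left, wcl_add_right, wcl_add_right, wcl_line, one_mul, sub_eq_add_neg, wcl_add_right,
      wcl_neg_right, wcl_smul c w b2, ← wcl_smul d a2 w, wcl_anti (d • a2) w, mul_assoc]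
  | one => exact ⟨0, V'.zero_mem, 1, one_mem _, by rw [wcl_zero_right, mul_one]⟩
  | mul x y _ _ hx hy =>
    obtain ⟨z, hz, β, hβ, rfl⟩ := hx
    obtain ⟨z', hz', β', hβ', rfl⟩ := hy
    exact ⟨z + z', V'.add_mem hz hz', β * β', mul_mem hβ hβ', by
      rw [wcl_add_right, mul_mul_mul_comm]⟩
  | inv x _ hx =>
    obtain ⟨z, hz, β, hβ, rfl⟩ := hx
    exact ⟨-z, V'.neg_mem hz, β⁻¹, inv_mem hβ, by rw [wcl_neg_right, mul_inv]⟩

/-- a product of `m` classes `w(a_i,b_i)` -/
def Prd (p : ℕ) [Fact p.Prime] [CharP K p] (m : ℕ) (α : BrauerGroup.{u, u} K) : Prop :=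
  ∃ a b : Fin m → K, α = ∏ i, wcl p (a i) (b i)

theorem Prd.zero : Prd p 0 (1 : BrauerGroup.{u, u} K) := ⟨Fin.elim0, Fin.elim0, by simp⟩

theorem Prd.cons {m : ℕ} {α : BrauerGroup.{u, u} K} (h : Prd p m α) (x y : K) : Prd p (m + 1) (wcl p x y * α) := by
  obtain ⟨a, b, rfl⟩ := h
  exact ⟨Fin.cons x a, Fin.cons y b, by simp [Fin.prod_univ_succ]⟩

theorem Prd.succ {m : ℕ} {α : BrauerGroup.{u, u} K} (h : Prd p m α) : Prd p (m + 1) α := by
  have := h.cons 0 0
  rwa [wcl_zero, one_mul] at this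

theorem Prd.mono {m n : ℕ} (hmn : m ≤ n) {α : BrauerGroup.{u, u} K} (h : Prd p m α) : Prd p n α := by
  induction n, hmn using Nat.le_induction with
  | base => exact h
  | succ n _ ih => exact ih.succ

theorem Prd.mul {m n : ℕ} {α β : BrauerGroup.{u, u} K} (h : Prd p m α) (h' : Prd p n β) :
    Prd p (m + n) (α * β) := by
  obtain ⟨a, b, rfl⟩ := h
  obtain ⟨c, d, rfl⟩ := h'
  exact ⟨Fin.append a c, Fin.append b d, by simp [Fin.prod_univ_add]⟩

theorem exists_split (V : Submodule k K) [FiniteDimensional k V] {w : K} (hw : w ∈ V) (hw0 : w ≠ 0) :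
    ∃ V' : Submodule k K, V' ≤ V ∧ V = Submodule.span k {w} ⊔ V' ∧
      Module.finrank k V = Module.finrank k V' + 1 := by
  obtain ⟨C, hC⟩ := Submodule.exists_isCompl (Submodule.span k {w})
  have hle : Submodule.span k {w} ≤ V := by
    rw [Submodule.span_le, Set.singleton_subset_iff]; exact hw
  have e1 : V = Submodule.span k {w} ⊔ (V ⊓ C) := by
    rw [inf_comm, ← sup_inf_assoc_of_le C hle, hC.sup_eq_top, top_inf_eq]
  refine ⟨V ⊓ C, inf_le_left, e1, ?_⟩
  haveI : FiniteDimensional k ↥(V ⊓ C) := Submodule.finiteDimensional_inf_left _ _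
  have h2 := Submodule.finrank_sup_add_finrank_inf_eq (Submodule.span k {w}) (V ⊓ C)
  have h3 : Submodule.span k {w} ⊓ (V ⊓ C) = ⊥ := by
    rw [eq_bot_iff, ← hC.inf_eq_bot]
    exact le_inf inf_le_left (inf_le_right.trans inf_le_right)
  rw [← e1, h3, finrank_bot, add_zero, finrank_span_singleton hw0] at h2
  rw [h2, add_comm]

theorem GV_prd (n : ℕ) : ∀ (V : Submodule k K) [FiniteDimensional k V], Module.finrank k V ≤ n →
    ∀ α ∈ GV p V, Prd p (n / 2) α := by
  induction n using Nat.strong_induction_on with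
  | _ n ih =>
    intro V _ hV α hα
    by_cases hb : V = ⊥
    · have h1 : α = 1 := by
        have h2 : GV p V ≤ ⊥ := by
          unfold GV
          rw [Subgroup.closure_le]
          rintro _ ⟨a, ha, b, _, rfl⟩
          rw [hb, Submodule.mem_bot] at ha
          rw [ha, wcl_zero]
          exact one_mem _
        exact Subgroup.mem_bot.1 (h2 hα)
      rw [h1]
      exact Prd.mono (Nat.zero_le _) Prd.zero
    · obtain ⟨w, hw, hw0⟩ := V.ne_bot_iff.1 hb
      obtain ⟨V', hV'V, hV', hf⟩ := exists_split V hw hw0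
      haveI : FiniteDimensional k V' := Submodule.finiteDimensional_of_le hV'V
      obtain ⟨z, hz, β, hβ, rfl⟩ := GV_split V V' w hV' α hα
      by_cases hz0 : z = 0
      · rw [hz0, wcl_zero_right, one_mul]
        exact Prd.mono (Nat.div_le_div_right (by omega : n - 1 ≤ n)) (ih (n - 1) (by omega) V' (by omega) β hβ)
      · obtain ⟨V'', hV''V, hV'', hf'⟩ := exists_split V' hz hz0
        haveI : FiniteDimensional k V'' := Submodule.finiteDimensional_of_le hV''V
        obtain ⟨z', hz', γ, hγ, rfl⟩ := GV_split V' V'' z hV'' β hβ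
        have h1 := ih (n - 2) (by omega) V'' (by omega) γ hγ
        have h2 : wcl p w z * (wcl p z z' * γ) = wcl p (w - z') z * γ := by
          rw [wcl_anti z z', ← wcl_neg_left, ← mul_assoc, ← wcl_add_left, sub_eq_add_neg]
        rw [h2]
        have h3 := h1.cons (w - z') z
        have h4 : (n - 2) / 2 + 1 = n / 2 := by omega
        rwa [h4] at h3

theorem hasRep_wcl (a b : K) : HasRep (wcl p a b) p :=
  ⟨W K p a b, inferInstance, inferInstance, inferInstance, inferInstance, inferInstance, rfl, (w_csa a b).2.2.2⟩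

theorem hasRep_one' : HasRep (1 : BrauerGroup.{u, u} K) 1 :=
  ⟨K, inferInstance, inferInstance, inferInstance, inferInstance, inferInstance, rfl, by simp⟩

theorem Prd.hasRep {m : ℕ} {α : BrauerGroup.{u, u} K} (h : Prd p m α) : HasRep α (p ^ m) := by
  induction m generalizing α with
  | zero =>
    obtain ⟨a, b, rfl⟩ := h
    simpa using hasRep_one' (K := K)
  | succ m ih =>
    obtain ⟨a, b, rfl⟩ := h
    rw [Fin.prod_univ_succ, pow_succ']
    exact (hasRep_wcl _ _).mul (ih ⟨_, _, rfl⟩)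

end Pool.Agent.W5h91.WF
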