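import Mathlib

/-! Purely inseparable extensions generated by `p^n`-th roots. -/

set_option autoImplicit false
set_option linter.all false

noncomputable section

namespace Pool.Agent.W5h91.WF

universe u v

open Polynomial

theorem exists_root_one (p : ℕ) [Fact p.Prime] (n : ℕ) (L : Type u) [Field L] [CharP L p] (c : L) :
    ∃ (M : Type u) (_ : Field M) (_ : Algebra L M) (_ : FiniteDimensional L M),
      Module.finrank L M ∣ p ^ n ∧ ∃ z : M, z ^ (p ^ n) = algebraMap L M c := by
  have hp := (Fact.out : p.Prime)
  have hq : 0 < p ^ n := pow_pos hp.pos n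
  haveI : ExpChar L p := ExpChar.prime hp
  obtain ⟨z, hz⟩ := IsAlgClosed.exists_pow_nat_eq (algebraMap L (AlgebraicClosure L) c) hq
  haveI hpi : IsPurelyInseparable L (IntermediateField.adjoin L {z}) :=
    (IntermediateField.isPurelyInseparable_adjoin_simple_iff_pow_mem L (AlgebraicClosure L) p).2
      ⟨n, by rw [hz]; exact ⟨c, rfl⟩⟩
  have hint : IsIntegral L z := (Algebra.IsAlgebraic.isAlgebraic z).isIntegral
  haveI hfd : FiniteDimensional L (IntermediateField.adjoin L {z}) :=
    IntermediateField.adjoin.finiteDimensional hint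
  refine ⟨IntermediateField.adjoin L {z}, inferInstance, inferInstance, hfd, ?_,
    ⟨z, IntermediateField.mem_adjoin_simple_self L z⟩, ?_⟩
  · obtain ⟨s, hs⟩ := IsPurelyInseparable.finrank_eq_pow (F := L) (E := IntermediateField.adjoin L {z}) p
    rw [hs]
    apply pow_dvd_pow
    have h1 : Module.finrank L (IntermediateField.adjoin L {z}) ≤ p ^ n := by
      rw [IntermediateField.adjoin.finrank hint]
      have h2 : aeval z (X ^ (p ^ n) - C c : L[X]) = 0 := by
        simp [hz]
      have h3 : (X ^ (p ^ n) - C c : L[X]) ≠ 0 := X_pow_sub_C_ne_zero hq c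
      refine (natDegree_le_of_dvd (minpoly.dvd L z h2) h3).trans ?_
      rw [natDegree_X_pow_sub_C]
    rw [hs] at h1
    exact (Nat.pow_le_pow_iff_right hp.one_lt).1 h1
  · apply Subtype.ext
    exact hz

theorem exists_roots (p : ℕ) [Fact p.Prime] (n : ℕ) (K : Type u) [Field K] [CharP K p] (m : ℕ) (c : Fin m → K) :
    ∃ (L : Type u) (_ : Field L) (_ : Algebra K L) (_ : FiniteDimensional K L),
      Module.finrank K L ∣ (p ^ n) ^ m ∧ ∀ i, ∃ z : L, z ^ (p ^ n) = algebraMap K L (c i) := by
  induction m with
  | zero =>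
    exact ⟨K, inferInstance, inferInstance, inferInstance, by rw [Module.finrank_self]; exact one_dvd _,
      fun i => i.elim0⟩
  | succ m ih =>
    obtain ⟨L, _, _, _, hL, hc⟩ := ih (fun i => c i.castSucc)
    haveI : CharP L p := charP_of_injective_algebraMap (algebraMap K L).injective p
    obtain ⟨M, _, _, _, hM, z, hz⟩ := exists_root_one p n L (algebraMap K L (c (Fin.last m)))
    letI : Algebra K M := ((algebraMap L M).comp (algebraMap K L)).toAlgebra
    haveI : IsScalarTower K L M := IsScalarTower.of_algebraMap_eq (fun _ => rfl)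
    refine ⟨M, inferInstance, inferInstance, FiniteDimensional.trans K L M, ?_, ?_⟩
    · rw [← Module.finrank_mul_finrank K L M, pow_succ]
      exact mul_dvd_mul hL hM
    · intro i
      induction i using Fin.lastCases with
      | last => exact ⟨z, hz⟩
      | cast i =>
        obtain ⟨w, hw⟩ := hc i
        exact ⟨algebraMap L M w, by rw [← map_pow, hw]; rfl⟩

/-- the subfield of elements of `K` which are `p^n`-th powers in `L` -/
def powField (p : ℕ) [Fact p.Prime] (n : ℕ) (K : Type u) [Field K] (L : Type u) [Field L] [CharP L p] [Algebra K L] :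
    Subfield K :=
  haveI : ExpChar L p := ExpChar.prime Fact.out
  ((iterateFrobenius L p n).fieldRange).comap (algebraMap K L)

theorem mem_powField (p : ℕ) [Fact p.Prime] (n : ℕ) (K : Type u) [Field K] (L : Type u) [Field L] [CharP L p]
    [Algebra K L] (b : K) : b ∈ powField p n K L ↔ ∃ z : L, z ^ (p ^ n) = algebraMap K L b := by
  haveI : ExpChar L p := ExpChar.prime Fact.out
  unfold powField
  rw [Subfield.mem_comap, RingHom.mem_fieldRange]
  exact Iff.rfl

theorem closure_powField (p : ℕ) [Fact p.Prime] (n : ℕ) (K : Type u) [Field K] (L : Type u) [Field L] [CharP L p]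
    [Algebra K L] {ι : Type*} (t : ι → K) (ht : ∀ i, ∃ z : L, z ^ (p ^ n) = algebraMap K L (t i)) (b : K)
    (hb : b ∈ Subfield.closure (Set.range (fun c : K => c ^ (p ^ n)) ∪ Set.range t)) :
    ∃ z : L, z ^ (p ^ n) = algebraMap K L b := by
  rw [← mem_powField]
  have h : Subfield.closure (Set.range (fun c : K => c ^ (p ^ n)) ∪ Set.range t) ≤ powField p n K L := by
    rw [Subfield.closure_le]
    rintro _ (⟨c, rfl⟩ | ⟨i, rfl⟩)
    · exact (mem_powField p n K L _).2 ⟨algebraMap K L c, by simp only [map_pow]⟩
    · exact (mem_powField p n K L _).2 (ht i)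
  exact h hb

end Pool.Agent.W5h91.WF
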