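import Mathlib

/-! Lattice lemmas for the ordinary part. -/

set_option autoImplicit false
set_option linter.all false

noncomputable section

namespace Pool.Agent.W5h91.WF

/-- the orthogonal of a unimodular vector is generated by `r - 1` vectors -/
theorem exists_perp (r : ℕ) (v w : Fin r → ℤ) (h : ∑ i, w i * v i = 1) :
    ∃ b : Fin (r - 1) → (Fin r → ℤ), ∀ u : Fin r → ℤ, ∑ i, u i * v i = 0 →
      ∃ n : Fin (r - 1) → ℤ, u = ∑ s, n s • b s := by
  let l : (Fin r → ℤ) →ₗ[ℤ] ℤ :=
    { toFun := fun u => ∑ i, u i * v i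
      map_add' := fun u u' => by simp [add_mul, Finset.sum_add_distrib]
      map_smul' := fun c u => by simp [Finset.mul_sum, mul_assoc] }
  have hl : ∀ u, l u = ∑ i, u i * v i := fun u => rfl
  have hsurj : Function.Surjective l := by
    intro m
    refine ⟨m • w, ?_⟩
    rw [map_smul, hl, h]; simp
  have h1 := Submodule.finrank_quotient_add_finrank (LinearMap.ker l)
  have h2 : Module.finrank ℤ ((Fin r → ℤ) ⧸ LinearMap.ker l) = 1 := by
    rw [(l.quotKerEquivOfSurjective hsurj).finrank_eq, Module.finrank_self]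
  rw [h2, Module.finrank_fin_fun] at h1
  have h3 : Module.finrank ℤ (LinearMap.ker l) = r - 1 := by omega
  let e : Module.Basis (Fin (r - 1)) ℤ (LinearMap.ker l) := Module.finBasisOfFinrankEq ℤ _ h3
  refine ⟨fun s => (e s : Fin r → ℤ), fun u hu => ?_⟩
  let u' : LinearMap.ker l := ⟨u, hu⟩
  refine ⟨fun s => e.repr u' s, ?_⟩
  have h4 : ((∑ s, e.repr u' s • e s : LinearMap.ker l) : Fin r → ℤ) = u :=
    congrArg (fun z : LinearMap.ker l => (z : Fin r → ℤ)) (e.sum_repr u')
  rw [← h4]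
  push_cast
  rfl

section mon

variable {G : Type*} [CommGroup G] {r : ℕ}

/-- monomials -/
def mon (f : Fin r → G) (u : Fin r → ℤ) : G := ∏ j, f j ^ u j

theorem mon_add (f : Fin r → G) (u u' : Fin r → ℤ) : mon f (u + u') = mon f u * mon f u' := by
  simp [mon, zpow_add, Finset.prod_mul_distrib]

theorem mon_smul (f : Fin r → G) (c : ℤ) (u : Fin r → ℤ) : mon f (c • u) = mon f u ^ c := by
  simp [mon, ← Finset.prod_zpow, ← zpow_mul, mul_comm]

theorem mon_zero (f : Fin r → G) : mon f 0 = 1 := by simp [mon]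

theorem mon_sum {ι : Type*} (S : Finset ι) (f : Fin r → G) (c : ι → ℤ) (u : ι → Fin r → ℤ) :
    mon f (∑ s ∈ S, c s • u s) = ∏ s ∈ S, mon f (u s) ^ c s := by
  classical
  induction S using Finset.induction_on with
  | empty => simp [mon_zero]
  | insert a S ha ih => rw [Finset.sum_insert ha, Finset.prod_insert ha, mon_add, mon_smul, ih]

/-- monomials with exponent vector orthogonal to `v` modulo `q` -/
theorem mon_mem (f : Fin r → G) (P : Subgroup G) (q : ℕ) (hq : ∀ g : G, g ^ q ∈ P) (v w : Fin r → ℤ)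
    (h : ∑ i, w i * v i = 1) (b : Fin (r - 1) → (Fin r → ℤ))
    (hb : ∀ u : Fin r → ℤ, ∑ i, u i * v i = 0 → ∃ n : Fin (r - 1) → ℤ, u = ∑ s, n s • b s)
    (hP : ∀ s, mon f (b s) ∈ P) (u : Fin r → ℤ) (hu : (q : ℤ) ∣ ∑ i, u i * v i) : mon f u ∈ P := by
  obtain ⟨m, hm⟩ := hu
  obtain ⟨n, hn⟩ := hb (u - ((q : ℤ) * m) • w) (by
    have : ∑ i, (u - ((q : ℤ) * m) • w) i * v i = ∑ i, u i * v i - (q : ℤ) * m * ∑ i, w i * v i := by
      rw [Finset.mul_sum, ← Finset.sum_sub_distrib]
      refine Finset.sum_congr rfl (fun i _ => ?_)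
      simp only [Pi.sub_apply, Pi.smul_apply, smul_eq_mul]
      ring
    rw [this, h, hm]; ring)
  have h1 : u = (∑ s, n s • b s) + ((q : ℤ) * m) • w := by rw [← hn]; abel
  rw [h1, mon_add, mon_sum, mon_smul]
  refine P.mul_mem (P.prod_mem (fun s _ => P.zpow_mem (hP s) _)) ?_
  rw [mul_comm, zpow_mul, zpow_natCast]
  exact hq _

end mon

section rm

variable {O : Type*} [CommRing O] {r : ℕ} (ε : Module.Basis (Fin r) ℤ O)

theorem repr_one : ∑ j, (ε.repr 1 j) • ε j = 1 := ε.sum_repr 1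

theorem unimod_one (hr : 0 < r) : ∃ w : Fin r → ℤ, ∑ i, w i * ε.repr 1 i = 1 := by
  let i0 : Fin r := ⟨0, hr⟩
  refine ⟨fun j => ε.repr (ε j * ε i0) i0, ?_⟩
  have h1 : ε i0 = ∑ j, (ε.repr 1 j) • (ε j * ε i0) := by
    calc ε i0 = (∑ j, (ε.repr 1 j) • ε j) * ε i0 := by rw [repr_one, one_mul]
      _ = _ := by rw [Finset.sum_mul]; simp only [smul_mul_assoc]
  have h2 := congrArg (fun z => ε.repr z i0) h1
  simp only [map_sum, map_smul, Finsupp.coe_finset_sum, Finset.sum_apply, Finsupp.smul_apply, smul_eq_mul,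
    Module.Basis.repr_self, Finsupp.single_eq_same] at h2
  rw [h2]
  exact Finset.sum_congr rfl (fun i _ => mul_comm _ _)

theorem rm_split {G B : Type*} [CommGroup G] [CommGroup B] (q : ℕ)
    (hdisc : IsCoprime (Algebra.discr ℤ ε) (q : ℤ)) (φ : Fin r → (G →* B)) (f : Fin r → G)
    (hrel : ∀ c : O, ∏ a, ∏ b, φ a (f b) ^ (Algebra.trace ℤ O (c * ε a * ε b)) = 1)
    (P : Subgroup G) (T : Subgroup B) (hT : ∀ i, ∀ g ∈ P, φ i g ∈ T)
    (hP : ∀ u : Fin r → ℤ, (q : ℤ) ∣ ∑ i, u i * ε.repr 1 i → mon f u ∈ P) (i j : Fin r) :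
    φ i (f j) ∈ T := by
  classical
  obtain ⟨α, β, hαβ⟩ := hdisc
  have hTA : Algebra.traceMatrix ℤ ε * (α • (Algebra.traceMatrix ℤ ε).adjugate) =
      (1 - β * q) • (1 : Matrix (Fin r) (Fin r) ℤ) := by
    rw [Matrix.mul_smul, Matrix.mul_adjugate, smul_smul, ← Algebra.discr_def]
    congr 1
    linear_combination hαβ
  set S := α • (Algebra.traceMatrix ℤ ε).adjugate with hS
  set v : Fin r → ℤ := fun j => ε.repr 1 j with hv
  let c : O := ∑ s, (-(v j) * S s i) • ε s
  have htr : ∀ a, Algebra.trace ℤ O (c * ε a) = -(v j) * ((1 - β * q) * if a = i then 1 else 0) := by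
    intro a
    have h1 := congrFun (congrFun hTA a) i
    rw [Matrix.mul_apply, Matrix.smul_apply, Matrix.one_apply, smul_eq_mul] at h1
    rw [← h1, Finset.mul_sum]
    simp only [c]
    rw [Finset.sum_mul, map_sum]
    refine Finset.sum_congr rfl (fun s _ => ?_)
    rw [smul_mul_assoc, map_smul, Algebra.traceMatrix_apply, Algebra.traceForm_apply, smul_eq_mul,
      mul_comm (ε a)]
    ring
  let M : Fin r → Fin r → ℤ := fun a b => (if a = i then (if b = j then 1 else 0) else 0) +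
    Algebra.trace ℤ O (c * ε a * ε b)
  have hrow : ∀ a, (q : ℤ) ∣ ∑ b, M a b * v b := by
    intro a
    have h1 : ∑ b, Algebra.trace ℤ O (c * ε a * ε b) * v b = Algebra.trace ℤ O (c * ε a) := by
      conv_rhs => rw [← mul_one (c * ε a), ← repr_one ε, Finset.mul_sum, map_sum]
      refine Finset.sum_congr rfl (fun b _ => ?_)
      rw [mul_smul_comm, map_smul, smul_eq_mul, mul_comm]
    have h2 : ∑ b, M a b * v b = (if a = i then v j else 0) + Algebra.trace ℤ O (c * ε a) := by
      simp only [M, add_mul]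
      rw [Finset.sum_add_distrib, h1]
      congr 1
      by_cases ha : a = i
      · simp [ha]
      · simp [ha]
    rw [h2, htr]
    by_cases ha : a = i
    · rw [if_pos ha, if_pos ha]
      exact ⟨v j * β, by ring⟩
    · rw [if_neg ha, if_neg ha]
      simp
  have h3 : φ i (f j) = ∏ a, φ a (mon f (M a)) := by
    have h4 : ∀ a, φ a (mon f (M a)) =
        (∏ b, φ a (f b) ^ (if a = i then (if b = j then (1 : ℤ) else 0) else 0)) *
          ∏ b, φ a (f b) ^ (Algebra.trace ℤ O (c * ε a * ε b)) := by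
      intro a
      rw [← Finset.prod_mul_distrib, mon, map_prod]
      refine Finset.prod_congr rfl (fun b _ => ?_)
      rw [map_zpow, ← zpow_add]
    rw [Finset.prod_congr rfl (fun a _ => h4 a), Finset.prod_mul_distrib, hrel c, mul_one,
      Finset.prod_eq_single i, Finset.prod_eq_single j]
    · simp
    · intro b _ hb; simp [hb]
    · intro h; exact absurd (Finset.mem_univ _) h
    · intro a _ ha; simp [ha]
    · intro h; exact absurd (Finset.mem_univ _) h
  rw [h3]
  exact T.prod_mem (fun a _ => hT a _ (hP _ (hrow a)))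

end rm

end Pool.Agent.W5h91.WF
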