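import Mathlib
import Pool.Agent.W5h91.WF.F
import Pool.Agent.W5h91.WF.G
import Pool.Agent.W5h91.WF.H
import Pool.Agent.Y109.PI.Res

/-! Restriction of the classes `w(a,b)`, splitting by roots, and the index bound. -/

set_option autoImplicit false
set_option linter.all false

open scoped TensorProduct

noncomputable section

namespace Pool.Agent.W5h91.WF

open Pool.Agent.Helper18.Br Pool.Agent.H552R3.SymBr

universe u v w

/-- `c` is the class of a central simple algebra of dimension `p ^ 2` which contains elements `x, y`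
with `x ^ p = a`, `y ^ p = b`, `x y - y x = 1`. -/
def IsForm {K : Type u} [Field K] (p : ℕ) (a b : K) (c : BrauerGroup.{u, u} K) : Prop :=
  ∃ (A : Type u) (_ : Ring A) (_ : Algebra K A) (_ : Algebra.IsCentral K A) (_ : IsSimpleRing A)
    (_ : FiniteDimensional K A), Module.finrank K A = p ^ 2 ∧ brauerClass K A = c ∧
      ∃ x y : A, x ^ p = algebraMap K A a ∧ y ^ p = algebraMap K A b ∧ x * y - y * x = 1

/-- for every `b`, the class `φ(b)` is split by every finite field extension of `K` in which `b` is a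
`q`-th power -/
def SplitByRoots {K : Type u} [Field K] (q : ℕ) (φ : Kˣ →* BrauerGroup.{u, u} K) : Prop :=
  ∀ (L : Type u) [Field L] [Algebra K L] [FiniteDimensional K L] (b : Kˣ) (z : L),
    z ^ q = algebraMap K L b → res L (φ b) = 1

variable {K : Type u} [Field K] {p : ℕ} [hpp : Fact p.Prime] [hcp : CharP K p]

theorem isForm_iff (a b : K) (c : BrauerGroup.{u, u} K) : IsForm p a b c ↔ c = wcl p a b := by
  constructor
  · rintro ⟨A, _, _, _, _, _, hA, rfl, x, y, hx, hy, hxy⟩
    exact wcl_eq_of_alg hA x y hx hy (by rw [← hxy]; abel)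
  · rintro rfl
    exact ⟨W K p a b, inferInstance, inferInstance, inferInstance, inferInstance, inferInstance,
      (w_csa a b).2.2.2, rfl, wx K p a b, wy K p a b, wx_pow, wy_pow, by rw [wxy]; abel⟩

theorem res_wcl (L : Type u) [Field L] [Algebra K L] [CharP L p] (a b : K) :
    res L (wcl p a b) = wcl p (algebraMap K L a) (algebraMap K L b) := by
  haveI i1 : IsSimpleRing (L ⊗[K] W K p a b) := isSimple_base K L _
  haveI i2 : Algebra.IsCentral L (L ⊗[K] W K p a b) := isCentral_base K L _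
  have h : res L (wcl p a b) = brauerClass L (L ⊗[K] W K p a b) := rfl
  have hal : ∀ c : K, (1 : L) ⊗ₜ[K] (algebraMap K (W K p a b) c) =
      algebraMap L (L ⊗[K] W K p a b) (algebraMap K L c) := by
    intro c
    rw [Algebra.TensorProduct.algebraMap_apply, Algebra.algebraMap_eq_smul_one, TensorProduct.tmul_smul,
      TensorProduct.smul_tmul', Algebra.algebraMap_eq_smul_one, algebraMap_smul]
  rw [h]
  refine wcl_eq_of_alg (by rw [Module.finrank_baseChange, (w_csa a b).2.2.2])
    ((1 : L) ⊗ₜ[K] wx K p a b) ((1 : L) ⊗ₜ[K] wy K p a b) ?_ ?_ ?_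
  · rw [Algebra.TensorProduct.tmul_pow, wx_pow, one_pow, hal]
  · rw [Algebra.TensorProduct.tmul_pow, wy_pow, one_pow, hal]
  · rw [Algebra.TensorProduct.tmul_mul_tmul, Algebra.TensorProduct.tmul_mul_tmul, wxy, TensorProduct.tmul_add,
      one_mul, Algebra.TensorProduct.one_def]

/-- the homomorphism `b ↦ w(c/b, b)` -/
def asHom (p : ℕ) [Fact p.Prime] [CharP K p] (c : K) : Kˣ →* BrauerGroup.{u, u} K where
  toFun b := wcl p (c / b) b
  map_one' := by
    have := wcl_pow_right (p := p) (c / ((1 : Kˣ) : K)) (1 : K)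
    rw [one_pow] at this
    exact this
  map_mul' b b' := by
    have hb := b.ne_zero
    have hb' := b'.ne_zero
    rw [Units.val_mul, wcl_leibniz, mul_comm (wcl p _ _)]
    congr 2
    · field_simp
    · field_simp

theorem asHom_apply (c : K) (b : Kˣ) : asHom p c b = wcl p (c / b) b := rfl

theorem split_w (L : Type u) [Field L] [Algebra K L] (a b : K) (z : L) (hz : z ^ p = algebraMap K L b) :
    res L (wcl p a b) = 1 := by
  haveI : CharP L p := charP_of_injective_algebraMap (algebraMap K L).injective p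
  rw [res_wcl, ← hz, wcl_pow_right]

theorem split_asHom (c : K) : SplitByRoots p (asHom p c) := by
  intro L _ _ _ b z hz
  rw [asHom_apply]
  exact split_w L _ _ z hz

theorem index_bound {k : Type v} [Field k] [IsAlgClosed k] [Algebra k K] (n : ℕ) (hn : 0 < n) {g e r : ℕ}
    (x : Fin g → K) (t : Fin e → K) {O : Type w} [CommRing O] (ε : Module.Basis (Fin r) ℤ O)
    (hdisc : IsCoprime (Algebra.discr ℤ ε) (p : ℤ)) (φ : Fin r → (Kˣ →* BrauerGroup.{u, u} K))
    (f : Fin r → Kˣ) (hφ : ∀ i, SplitByRoots (p ^ n) (φ i))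
    (hrel : ∀ c : O, ∏ i, ∏ j, φ i (f j) ^ (Algebra.trace ℤ O (c * ε i * ε j)) = 1)
    (α : BrauerGroup.{u, u} K)
    (hα : α ∈ Subgroup.closure
      (({γ | ∃ i j, γ = φ i (f j)} ∪
        {γ | ∃ (ψ : Kˣ →* BrauerGroup.{u, u} K) (b : Kˣ), SplitByRoots (p ^ n) ψ ∧
          (b : K) ∈ Subfield.closure (Set.range (fun c : K => c ^ (p ^ n)) ∪ Set.range t) ∧ γ = ψ b} ∪
        {γ | ∃ a b : K, b ∈ Subfield.closure (Set.range (fun c : K => c ^ p) ∪ Set.range t) ∧
          IsForm p a b γ}) ∪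
        {γ | ∃ a ∈ Submodule.span k (Set.range x), ∃ b ∈ Submodule.span k (Set.range x), IsForm p a b γ})) :
    IndDvd α (p ^ (n * (r - 1 + e) + g / 2)) := by
  classical
  have hp := (Fact.out : p.Prime)
  rw [Subgroup.closure_union, Subgroup.mem_sup] at hα
  obtain ⟨α₁, h1, α₂, h2, rfl⟩ := hα
  -- the second part
  have hrep2 : HasRep α₂ (p ^ (g / 2)) := by
    have hfr : Module.finrank k (Submodule.span k (Set.range x)) ≤ g := by
      have := finrank_range_le_card (R := k) x
      rw [Fintype.card_fin] at this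
      exact this
    haveI : FiniteDimensional k (Submodule.span k (Set.range x)) :=
      FiniteDimensional.span_of_finite k (Set.finite_range x)
    have h3 : α₂ ∈ GV p (Submodule.span k (Set.range x)) := by
      refine (Subgroup.closure_mono ?_) h2
      rintro γ ⟨a, ha, b, hb, h⟩
      exact ⟨a, ha, b, hb, (isForm_iff a b γ).1 h⟩
    exact (GV_prd g _ hfr α₂ h3).hasRep
  -- the orthogonal of 1
  have hperp : ∃ (b : Fin (r - 1) → (Fin r → ℤ)), ∀ (P : Subgroup Kˣ), (∀ g : Kˣ, g ^ (p ^ n) ∈ P) →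
      (∀ s, mon f (b s) ∈ P) → ∀ u : Fin r → ℤ, ((p ^ n : ℕ) : ℤ) ∣ ∑ i, u i * ε.repr 1 i → mon f u ∈ P := by
    rcases Nat.eq_zero_or_pos r with hr | hr
    · subst hr
      refine ⟨fun _ => 0, fun P _ _ u _ => ?_⟩
      have : mon f u = 1 := by simp [mon]
      rw [this]; exact P.one_mem
    · obtain ⟨w, hw⟩ := unimod_one ε hr
      obtain ⟨b, hb⟩ := exists_perp r (fun i => ε.repr 1 i) w hw
      exact ⟨b, fun P hq hP u hu => mon_mem f P (p ^ n) hq _ w hw b hb hP u hu⟩
  obtain ⟨b, hb⟩ := hperp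
  -- the splitting field
  obtain ⟨L, _, _, _, hdeg, hroots⟩ := exists_roots p n K ((r - 1) + e)
    (Fin.append (fun s => ((mon f (b s) : Kˣ) : K)) t)
  haveI : CharP L p := charP_of_injective_algebraMap (algebraMap K L).injective p
  have hroot1 : ∀ s, ∃ z : L, z ^ (p ^ n) = algebraMap K L ((mon f (b s) : Kˣ) : K) := by
    intro s
    have := hroots (Fin.castAdd e s)
    rwa [Fin.append_left] at this
  have hroot2 : ∀ i, ∃ z : L, z ^ (p ^ n) = algebraMap K L (t i) := by
    intro i
    have := hroots (Fin.natAdd (r - 1) i)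
    rwa [Fin.append_right] at this
  have hroot3 : ∀ i, ∃ z : L, z ^ (p ^ 1) = algebraMap K L (t i) := by
    intro i
    obtain ⟨z, hz⟩ := hroot2 i
    obtain ⟨m, rfl⟩ : ∃ m, n = m + 1 := ⟨n - 1, by omega⟩
    exact ⟨z ^ (p ^ m), by rw [← pow_mul, pow_one, ← pow_succ, hz]⟩
  let P : Subgroup Kˣ :=
    { carrier := {b | ∃ z : L, z ^ (p ^ n) = algebraMap K L (b : K)}
      mul_mem' := by
        rintro a b ⟨z, hz⟩ ⟨z', hz'⟩
        exact ⟨z * z', by rw [mul_pow, hz, hz', Units.val_mul, map_mul]⟩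
      one_mem' := ⟨1, by simp⟩
      inv_mem' := by
        rintro a ⟨z, hz⟩
        exact ⟨z⁻¹, by rw [inv_pow, hz, Units.val_inv_eq_inv_val, map_inv₀]⟩ }
  have hPq : ∀ g : Kˣ, g ^ (p ^ n) ∈ P := fun g => ⟨algebraMap K L (g : K), by simp⟩
  have hPb : ∀ s, mon f (b s) ∈ P := hroot1
  have hker : ∀ i j, φ i (f j) ∈ (res (F := K) L).ker := by
    refine rm_split ε (p ^ n) ?_ φ f hrel P _ ?_ (hb P hPq hPb)
    · push_cast
      exact hdisc.pow_right
    · rintro i g ⟨z, hz⟩
      exact hφ i L g z hz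
  have h4 : α₁ ∈ (res (F := K) L).ker := by
    refine ((Subgroup.closure_le _).2 ?_) h1
    rintro γ ((⟨i, j, rfl⟩ | ⟨ψ, b, hψ, hb, rfl⟩) | ⟨a, b, hb, h⟩)
    · exact hker i j
    · obtain ⟨z, hz⟩ := closure_powField p n K L t hroot2 (b : K) hb
      exact hψ L b z hz
    · rw [(isForm_iff a b γ).1 h]
      have hb' : b ∈ Subfield.closure (Set.range (fun c : K => c ^ (p ^ 1)) ∪ Set.range t) := by
        simpa only [pow_one] using hb
      obtain ⟨z, hz⟩ := closure_powField p 1 K L t hroot3 b hb'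
      rw [pow_one] at hz
      exact split_w L a b z hz
  have h5 : IndDvd α₁ ((p ^ n) ^ (r - 1 + e)) := by
    have h6 : IndDvd (res L α₁) 1 := by
      rw [MonoidHom.mem_ker.1 h4]
      exact (hasRep_one' (K := L)).indDvd
    have h7 := Pool.Agent.Y109.PI.IndDvd.of_res L h6
    intro D _ _ _ _ hD
    exact (h7 D hD).trans (by rw [mul_one]; exact hdeg)
  have h8 : HasRep α₁ ((p ^ n) ^ (r - 1 + e)) := h5.hasRep (pow_pos (pow_pos hp.pos _) _)
  have h9 := (h8.mul hrep2).indDvd
  rwa [← pow_mul, ← pow_add] at h9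

end Pool.Agent.W5h91.WF
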