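import Mathlib
import Pool.Agent.W5h91.WF.H
import Pool.Agent.Y109.PI.RM

/-! The twisting lemma for products with an ordinary abelian variety. -/

set_option autoImplicit false
set_option linter.all false

noncomputable section

namespace Pool.Agent.W5h91.WF

open Pool.Agent.Y109.PI

/-- an invertible translate -/
theorem exists_inv {O : Type*} [CommRing O] {r : ℕ} (ε : Module.Basis (Fin r) ℤ O) (p : ℕ) [hp : Fact p.Prime]
    (hd : ¬ (p : ℤ) ∣ Algebra.discr ℤ ε) (M : Matrix (Fin r) (Fin r) ℤ) :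
    ∃ c : O, ¬ (p : ℤ) ∣ (M + Matrix.of fun i j => Algebra.trace ℤ O (c * ε i * ε j)).det := by
  classical
  rcases Nat.eq_zero_or_pos r with hr | hr
  · subst hr
    refine ⟨0, ?_⟩
    rw [Matrix.det_isEmpty]
    intro h
    exact (Nat.prime_iff_prime_int.1 hp.out).not_unit (isUnit_of_dvd_one h)
  · have hord := rm_ord ε p hr hd
    let b : Matrix (Fin r ⊕ Fin r) (Fin r ⊕ Fin r) ℤ := Matrix.fromBlocks 0 M (-M.transpose) 0
    have hb : Alt b := by
      constructor
      · intro u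
        rcases u with u | u <;> simp [b]
      · intro u v
        rcases u with u | u <;> rcases v with v | v <;> simp [b]
    obtain ⟨-, c, hc⟩ := hord.cw hp.out hr (by simp [two_mul]) b hb
    let c' : O := ∑ i, c i • ε i
    have hmat : b + ∑ i, c i • dif (rmw ε i) = Matrix.fromBlocks 0
        (M + Matrix.of fun i j => Algebra.trace ℤ O (c' * ε i * ε j))
        (-(M + Matrix.of fun i j => Algebra.trace ℤ O (c' * ε i * ε j)).transpose) 0 := by
      have htr : ∀ i j, Algebra.trace ℤ O (c' * ε i * ε j) = ∑ s, c s * Algebra.trace ℤ O (ε s * ε i * ε j) := by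
        intro i j
        simp only [c', Finset.sum_mul, map_sum, smul_mul_assoc, map_smul, smul_eq_mul]
      ext u v
      rcases u with u | u <;> rcases v with v | v
      · simp [b, dif, rmw, Matrix.sum_apply]
      · simp [b, dif, rmw, Matrix.sum_apply, htr]
      · simp [b, dif, rmw, Matrix.sum_apply, htr]
        ring
      · simp [b, dif, rmw, Matrix.sum_apply]
    refine ⟨c', fun hdvd => hc ?_⟩
    rw [hmat]
    have h1 : red p (Matrix.fromBlocks 0
        (M + Matrix.of fun i j => Algebra.trace ℤ O (c' * ε i * ε j))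
        (-(M + Matrix.of fun i j => Algebra.trace ℤ O (c' * ε i * ε j)).transpose) 0) =
        Matrix.fromBlocks 0 ((M + Matrix.of fun i j => Algebra.trace ℤ O (c' * ε i * ε j)).map (Int.castRingHom (ZMod p)))
        (-((M + Matrix.of fun i j => Algebra.trace ℤ O (c' * ε i * ε j)).map (Int.castRingHom (ZMod p))).transpose) 0 := by
      ext u v
      rcases u with u | u <;> rcases v with v | v <;> simp [red]
    rw [h1, det_anti, ← RingHom.mapMatrix_apply, ← RingHom.map_det]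
    rw [eq_intCast]
    exact (ZMod.intCast_zmod_eq_zero_iff_dvd _ _).2 hdvd

/-- an invertible translate by a scalar -/
theorem exists_inv' {r : ℕ} (p : ℕ) [hp : Fact p.Prime] (hr : r < p) (M : Matrix (Fin r) (Fin r) ℤ) :
    ∃ c : ℤ, ¬ (p : ℤ) ∣ (M + c • (1 : Matrix (Fin r) (Fin r) ℤ)).det := by
  classical
  let M' : Matrix (Fin r) (Fin r) (ZMod p) := - (M.map (Int.castRingHom (ZMod p)))
  have hm : M'.charpoly.Monic := Matrix.charpoly_monic M'
  have hdeg : M'.charpoly.natDegree < Fintype.card (ZMod p) := by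
    rw [Matrix.charpoly_natDegree_eq_dim, Fintype.card_fin, ZMod.card]
    exact hr
  have h1 : ∃ c : ZMod p, M'.charpoly.eval c ≠ 0 := by
    by_contra hcon
    push Not at hcon
    exact hm.ne_zero (Polynomial.eq_zero_of_natDegree_lt_card_of_eval_eq_zero _ Function.injective_id hcon hdeg)
  obtain ⟨c, hc⟩ := h1
  haveI : NeZero p := ⟨hp.out.ne_zero⟩
  obtain ⟨d, rfl⟩ : ∃ d : ℤ, (d : ZMod p) = c := ⟨(c.val : ℤ), by simp⟩
  refine ⟨d, fun hdvd => hc ?_⟩
  rw [Matrix.eval_charpoly]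
  have h2 : Matrix.scalar (Fin r) (d : ZMod p) - M' =
      (M + d • (1 : Matrix (Fin r) (Fin r) ℤ)).map (Int.castRingHom (ZMod p)) := by
    ext i j
    rw [Matrix.map_apply, Matrix.add_apply, Matrix.smul_apply, Matrix.one_apply, Matrix.sub_apply,
      Matrix.scalar_apply, Matrix.diagonal_apply]
    by_cases hij : i = j
    · subst hij
      simp [M', add_comm]
    · simp [M', hij]
  rw [h2, ← RingHom.mapMatrix_apply, ← RingHom.map_det, eq_intCast]
  exact (ZMod.intCast_zmod_eq_zero_iff_dvd _ _).2 hdvd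

section twist

variable {G B : Type*} [CommGroup G] [CommGroup B] {r : ℕ}

theorem prod_zpow_sum {ι : Type*} (S : Finset ι) (g : G) (a : ι → ℤ) :
    ∏ j ∈ S, g ^ a j = g ^ (∑ j ∈ S, a j) := by
  classical
  induction S using Finset.induction_on with
  | empty => simp
  | insert b S hb ih => rw [Finset.prod_insert hb, Finset.sum_insert hb, ih, zpow_add]

theorem nf1 (φ : Fin r → (G →* B)) (f : Fin r → G) (α : B)
    (hα : α ∈ Subgroup.closure {γ | ∃ i j, γ = φ i (f j)}) :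
    ∃ m : Matrix (Fin r) (Fin r) ℤ, α = ∏ i, ∏ j, φ i (f j) ^ m i j := by
  classical
  induction hα using Subgroup.closure_induction with
  | mem γ hγ =>
    obtain ⟨i, j, rfl⟩ := hγ
    refine ⟨Matrix.of fun a b => if a = i then (if b = j then 1 else 0) else 0, ?_⟩
    rw [Finset.prod_eq_single i, Finset.prod_eq_single j]
    · simp
    · intro b _ hb; simp [hb]
    · intro h; exact absurd (Finset.mem_univ _) h
    · intro a _ ha; simp [ha]
    · intro h; exact absurd (Finset.mem_univ _) h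
  | one => exact ⟨0, by simp⟩
  | mul x y _ _ hx hy =>
    obtain ⟨m, rfl⟩ := hx
    obtain ⟨m', rfl⟩ := hy
    refine ⟨m + m', ?_⟩
    simp only [Matrix.add_apply, zpow_add, Finset.prod_mul_distrib]
  | inv x _ hx =>
    obtain ⟨m, rfl⟩ := hx
    refine ⟨-m, ?_⟩
    simp only [Matrix.neg_apply, zpow_neg, Finset.prod_inv_distrib]

theorem nf2 (φ : Fin r → (G →* B)) (U : Subgroup G) (α : B)
    (hα : α ∈ Subgroup.closure {γ | ∃ i, ∃ u ∈ U, γ = φ i u}) :
    ∃ u : Fin r → G, (∀ i, u i ∈ U) ∧ α = ∏ i, φ i (u i) := by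
  classical
  induction hα using Subgroup.closure_induction with
  | mem γ hγ =>
    obtain ⟨i, u, hu, rfl⟩ := hγ
    refine ⟨fun a => if a = i then u else 1, fun a => ?_, ?_⟩
    · by_cases ha : a = i
      · simp [ha, hu]
      · simp [ha, U.one_mem]
    · rw [Finset.prod_eq_single i]
      · simp
      · intro b _ hb; simp [hb]
      · intro h; exact absurd (Finset.mem_univ _) h
  | one => exact ⟨1, fun _ => U.one_mem, by simp⟩
  | mul x y _ _ hx hy =>
    obtain ⟨u, hu, rfl⟩ := hx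
    obtain ⟨u', hu', rfl⟩ := hy
    refine ⟨u * u', fun i => U.mul_mem (hu i) (hu' i), ?_⟩
    simp only [Pi.mul_apply, map_mul, Finset.prod_mul_distrib]
  | inv x _ hx =>
    obtain ⟨u, hu, rfl⟩ := hx
    refine ⟨u⁻¹, fun i => U.inv_mem (hu i), ?_⟩
    simp only [Pi.inv_apply, map_inv, Finset.prod_inv_distrib]

theorem nf3 (Ψ : Subgroup (G →* B)) (f : Fin r → G) (α : B)
    (hα : α ∈ Subgroup.closure {γ | ∃ ψ ∈ Ψ, ∃ j, γ = ψ (f j)}) :
    ∃ ψ : Fin r → (G →* B), (∀ j, ψ j ∈ Ψ) ∧ α = ∏ j, ψ j (f j) := by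
  classical
  induction hα using Subgroup.closure_induction with
  | mem γ hγ =>
    obtain ⟨ψ, hψ, j, rfl⟩ := hγ
    refine ⟨fun a => if a = j then ψ else 1, fun a => ?_, ?_⟩
    · by_cases ha : a = j
      · simp [ha, hψ]
      · simp [ha, Ψ.one_mem]
    · rw [Finset.prod_eq_single j]
      · simp
      · intro b _ hb; simp [hb]
      · intro h; exact absurd (Finset.mem_univ _) h
  | one => exact ⟨1, fun _ => Ψ.one_mem, by simp⟩
  | mul x y _ _ hx hy =>
    obtain ⟨u, hu, rfl⟩ := hx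
    obtain ⟨u', hu', rfl⟩ := hy
    refine ⟨u * u', fun i => Ψ.mul_mem (hu i) (hu' i), ?_⟩
    simp only [Pi.mul_apply, MonoidHom.mul_apply, Finset.prod_mul_distrib]
  | inv x _ hx =>
    obtain ⟨u, hu, rfl⟩ := hx
    refine ⟨u⁻¹, fun i => Ψ.inv_mem (hu i), ?_⟩
    simp only [Pi.inv_apply, MonoidHom.inv_apply, Finset.prod_inv_distrib]

theorem twist (p n : ℕ) [hp : Fact p.Prime] (φ : Fin r → (G →* B)) (f : Fin r → G)
    (hrel : ∀ m : Matrix (Fin r) (Fin r) ℤ, ∃ N : Matrix (Fin r) (Fin r) ℤ,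
      ∏ a, ∏ b, φ a (f b) ^ N a b = 1 ∧ ¬ (p : ℤ) ∣ (m + N).det)
    (U : Subgroup G) (Ψ : Subgroup (G →* B)) (V : Subgroup B) (hV : ∀ ψ ∈ Ψ, ∀ u ∈ U, ψ u ∈ V)
    (α : B) (hα : α ∈ Subgroup.closure ((({γ | ∃ i j, γ = φ i (f j)} ∪ {γ | ∃ i, ∃ u ∈ U, γ = φ i u}) ∪
      {γ | ∃ ψ ∈ Ψ, ∃ j, γ = ψ (f j)}) ∪ (V : Set B))) :
    ∃ (h : Fin r → G) (θ : Fin r → (G →* B)) (w : Fin r → G) (β : B),
      (∀ (Θ : Subgroup (G →* B)), (∀ i, φ i ∈ Θ) → Ψ ≤ Θ → ∀ j, θ j ∈ Θ) ∧ β ∈ V ∧
      α = (∏ j, θ j (h j)) * (∏ i, φ i (w i ^ (p ^ n))) * β := by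
  classical
  rw [Subgroup.closure_union, Subgroup.closure_union, Subgroup.closure_union, Subgroup.closure_eq,
    Subgroup.mem_sup] at hα
  obtain ⟨α', hα', β, hβ, rfl⟩ := hα
  rw [Subgroup.mem_sup] at hα'
  obtain ⟨α'', hα'', α₃, hα₃, rfl⟩ := hα'
  rw [Subgroup.mem_sup] at hα''
  obtain ⟨α₁, hα₁, α₂, hα₂, rfl⟩ := hα''
  obtain ⟨m, rfl⟩ := nf1 φ f α₁ hα₁
  obtain ⟨u, hu, rfl⟩ := nf2 φ U α₂ hα₂
  obtain ⟨ψ, hψ, rfl⟩ := nf3 Ψ f α₃ hα₃
  obtain ⟨N, hN, hc⟩ := hrel m
  set M := m + N with hM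
  have hcop : IsCoprime M.det ((p ^ n : ℕ) : ℤ) := by
    push_cast
    apply IsCoprime.pow_right
    rw [isCoprime_comm]
    exact ((Nat.prime_iff_prime_int.1 hp.out).coprime_iff_not_dvd).2 hc
  obtain ⟨s, t, hst⟩ := hcop
  set S := s • M.adjugate with hS
  have hMS : M * S = (1 - t * ((p ^ n : ℕ) : ℤ)) • (1 : Matrix (Fin r) (Fin r) ℤ) := by
    rw [hS, Matrix.mul_smul, Matrix.mul_adjugate, smul_smul]
    congr 1
    linear_combination hst
  let v : Fin r → G := fun j => ∏ l, u l ^ S j l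
  have hv : ∀ j, v j ∈ U := fun j => U.prod_mem (fun l _ => U.zpow_mem (hu l) _)
  have hMv : ∀ i, ∏ j, v j ^ M i j = u i ^ (1 - t * ((p ^ n : ℕ) : ℤ)) := by
    intro i
    have h1 : ∏ j, v j ^ M i j = ∏ l, u l ^ (∑ j, M i j * S j l) := by
      calc ∏ j, v j ^ M i j = ∏ j, ∏ l, u l ^ (M i j * S j l) := by
            refine Finset.prod_congr rfl (fun j _ => ?_)
            rw [← Finset.prod_zpow]
            refine Finset.prod_congr rfl (fun l _ => ?_)
            rw [← zpow_mul, mul_comm]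
        _ = ∏ l, ∏ j, u l ^ (M i j * S j l) := Finset.prod_comm
        _ = _ := by
            refine Finset.prod_congr rfl (fun l _ => ?_)
            exact prod_zpow_sum _ _ _
    rw [h1]
    have h2 : ∀ l, ∑ j, M i j * S j l = (1 - t * ((p ^ n : ℕ) : ℤ)) * (if i = l then 1 else 0) := by
      intro l
      have := congrFun (congrFun hMS i) l
      rw [Matrix.mul_apply, Matrix.smul_apply, Matrix.one_apply, smul_eq_mul] at this
      exact this
    simp only [h2]
    rw [Finset.prod_eq_single i]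
    · simp
    · intro l _ hl; simp [Ne.symm hl]
    · intro h; exact absurd (Finset.mem_univ _) h
  refine ⟨fun j => f j * v j, fun j => (∏ i, φ i ^ M i j) * ψ j, fun i => u i ^ t,
    (∏ j, ψ j (v j))⁻¹ * β, ?_, ?_, ?_⟩
  · intro Θ h1 h2 j
    exact Θ.mul_mem (Θ.prod_mem (fun i _ => Θ.zpow_mem (h1 i) _)) (h2 (hψ j))
  · exact V.mul_mem (V.inv_mem (V.prod_mem (fun j _ => hV _ (hψ j) _ (hv j)))) hβ
  · have e1 : ∀ j, ((∏ i, φ i ^ M i j) * ψ j) (f j * v j) =
        (∏ i, φ i (f j) ^ M i j) * (∏ i, φ i (v j) ^ M i j) * (ψ j (f j) * ψ j (v j)) := by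
      intro j
      rw [MonoidHom.mul_apply, map_mul, map_mul, MonoidHom.finset_prod_apply, MonoidHom.finset_prod_apply]
      rfl
    have e2 : ∏ j, ∏ i, φ i (f j) ^ M i j = ∏ i, ∏ j, φ i (f j) ^ m i j := by
      rw [Finset.prod_comm]
      have : ∏ i, ∏ j, φ i (f j) ^ M i j = (∏ i, ∏ j, φ i (f j) ^ m i j) *
          ∏ i, ∏ j, φ i (f j) ^ N i j := by
        rw [← Finset.prod_mul_distrib]
        refine Finset.prod_congr rfl (fun i _ => ?_)
        rw [← Finset.prod_mul_distrib]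
        refine Finset.prod_congr rfl (fun j _ => ?_)
        rw [← zpow_add]
        rfl
      rw [this, hN, mul_one]
    have e3 : ∏ j, ∏ i, φ i (v j) ^ M i j = ∏ i, (φ i (u i) * (φ i ((u i ^ t) ^ (p ^ n)))⁻¹) := by
      rw [Finset.prod_comm]
      refine Finset.prod_congr rfl (fun i _ => ?_)
      have h1 : ∏ j, φ i (v j) ^ M i j = φ i (∏ j, v j ^ M i j) := by
        rw [map_prod]
        exact Finset.prod_congr rfl (fun j _ => (map_zpow _ _ _).symm)
      rw [h1, hMv, ← map_inv, ← map_mul]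
      congr 1
      rw [sub_eq_add_neg, zpow_add, zpow_one, zpow_neg, zpow_mul, zpow_natCast]
    simp only [e1]
    rw [Finset.prod_mul_distrib, Finset.prod_mul_distrib, Finset.prod_mul_distrib, e2, e3,
      Finset.prod_mul_distrib, Finset.prod_inv_distrib]
    generalize ∏ i, ∏ j, φ i (f j) ^ m i j = a1
    generalize ∏ i, φ i (u i) = a2
    generalize ∏ i, φ i ((u i ^ t) ^ (p ^ n)) = a3
    generalize ∏ j, ψ j (f j) = a4
    generalize ∏ j, ψ j (v j) = a5
    calc a1 * a2 * a4 * β = a1 * a2 * a4 * (a3⁻¹ * a3) * (a5 * a5⁻¹) * β := by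
          rw [inv_mul_cancel, mul_inv_cancel, mul_one, mul_one]
      _ = _ := by
          simp only [mul_assoc, mul_comm, mul_left_comm]

end twist

end Pool.Agent.W5h91.WF
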