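import Mathlib
import Pool.Agent.W5h91.WF.I
import Pool.Agent.W5h91.WF.J

/-! The index bound for products with an arbitrary variety. -/

set_option autoImplicit false
set_option linter.all false

open scoped TensorProduct

noncomputable section

namespace Pool.Agent.W5h91.WF

open Pool.Agent.Helper18.Br Pool.Agent.H552R3.SymBr

universe u v w

variable {K : Type u} [Field K] {p : ℕ} [hpp : Fact p.Prime] [hcp : CharP K p]

/-- the homomorphisms with the splitting property form a group -/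
def typeQ (K : Type u) [Field K] (q : ℕ) : Subgroup (Kˣ →* BrauerGroup.{u, u} K) where
  carrier := {ψ | SplitByRoots q ψ}
  mul_mem' := by
    intro φ ψ hφ hψ L _ _ _ b z hz
    rw [MonoidHom.mul_apply, map_mul, hφ L b z hz, hψ L b z hz, one_mul]
  one_mem' := by
    intro L _ _ _ b z hz
    rw [MonoidHom.one_apply, map_one]
  inv_mem' := by
    intro φ hφ L _ _ _ b z hz
    rw [MonoidHom.inv_apply, map_inv, hφ L b z hz, inv_one]

theorem mem_typeQ (q : ℕ) (ψ : Kˣ →* BrauerGroup.{u, u} K) : ψ ∈ typeQ K q ↔ SplitByRoots q ψ := Iff.rfl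

theorem hasRep_span {k : Type v} [Field k] [IsAlgClosed k] [Algebra k K] {g : ℕ} (x : Fin g → K)
    (α : BrauerGroup.{u, u} K) (hα : α ∈ Subgroup.closure {γ | ∃ a ∈ Submodule.span k (Set.range x),
      ∃ b ∈ Submodule.span k (Set.range x), IsForm p a b γ}) : HasRep α (p ^ (g / 2)) := by
  have hfr : Module.finrank k (Submodule.span k (Set.range x)) ≤ g := by
    have := finrank_range_le_card (R := k) x
    rw [Fintype.card_fin] at this
    exact this
  haveI : FiniteDimensional k (Submodule.span k (Set.range x)) :=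
    FiniteDimensional.span_of_finite k (Set.finite_range x)
  have h3 : α ∈ GV p (Submodule.span k (Set.range x)) := by
    refine (Subgroup.closure_mono ?_) hα
    rintro γ ⟨a, ha, b, hb, h⟩
    exact ⟨a, ha, b, hb, (isForm_iff a b γ).1 h⟩
  exact (GV_prd g _ hfr α h3).hasRep

theorem hasRep_pow {e : ℕ} (t : Fin e → K) (α : BrauerGroup.{u, u} K)
    (hα : α ∈ Subgroup.closure {γ | ∃ a b : K,
      b ∈ Subfield.closure (Set.range (fun c : K => c ^ p) ∪ Set.range t) ∧ IsForm p a b γ}) :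
    HasRep α (p ^ e) := by
  have hp := (Fact.out : p.Prime)
  obtain ⟨L', _, _, _, hdeg', hroots'⟩ := exists_roots p 1 K e t
  haveI : CharP L' p := charP_of_injective_algebraMap (algebraMap K L').injective p
  have h12 : α ∈ (res (F := K) L').ker := by
    refine ((Subgroup.closure_le _).2 ?_) hα
    rintro γ ⟨a, b, hb, h⟩
    rw [(isForm_iff a b γ).1 h]
    have hb' : b ∈ Subfield.closure (Set.range (fun c : K => c ^ (p ^ 1)) ∪ Set.range t) := by
      simpa only [pow_one] using hb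
    obtain ⟨z, hz⟩ := closure_powField p 1 K L' t hroots' b hb'
    rw [pow_one] at hz
    exact split_w L' a b z hz
  have h13 : IndDvd α (p ^ e) := by
    have h6 : IndDvd (res L' α) 1 := by
      rw [MonoidHom.mem_ker.1 h12]
      exact (hasRep_one' (K := L')).indDvd
    have h7 := Pool.Agent.Y109.PI.IndDvd.of_res L' h6
    rw [pow_one] at hdeg'
    intro D _ _ _ _ hD
    exact (h7 D hD).trans (by rw [mul_one]; exact hdeg')
  exact h13.hasRep (pow_pos hp.pos _)

theorem index_bound3 {k : Type v} [Field k] [IsAlgClosed k] [Algebra k K] (n : ℕ) (hn : 0 < n) {g e r : ℕ}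
    (hr : 0 < r) (x : Fin g → K) (t : Fin e → K) {O : Type w} [CommRing O] (ε : Module.Basis (Fin r) ℤ O)
    (hdisc : IsCoprime (Algebra.discr ℤ ε) (p : ℤ)) (φ : Fin r → (Kˣ →* BrauerGroup.{u, u} K))
    (f : Fin r → Kˣ) (hφ : ∀ i, SplitByRoots (p ^ n) (φ i))
    (hrel : ∀ c : O, ∏ i, ∏ j, φ i (f j) ^ (Algebra.trace ℤ O (c * ε i * ε j)) = 1)
    (V₀ : Subgroup (BrauerGroup.{u, u} K)) (m : ℕ) (hm : 0 < m) (hind : ∀ β ∈ V₀, IndDvd β m)
    (α : BrauerGroup.{u, u} K)
    (hα : α ∈ Subgroup.closure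
      (((({γ | ∃ i j, γ = φ i (f j)} ∪ {γ | ∃ i, ∃ u ∈ (⊥ : Subgroup Kˣ), γ = φ i u}) ∪
        {γ | ∃ ψ ∈ (⊥ : Subgroup (Kˣ →* BrauerGroup.{u, u} K)), ∃ j, γ = ψ (f j)}) ∪
          (V₀ : Set (BrauerGroup.{u, u} K))) ∪
        ({γ | ∃ a b : K, b ∈ Subfield.closure (Set.range (fun c : K => c ^ p) ∪ Set.range t) ∧
          IsForm p a b γ} ∪
        {γ | ∃ a ∈ Submodule.span k (Set.range x), ∃ b ∈ Submodule.span k (Set.range x), IsForm p a b γ}))) :
    IndDvd α (m * p ^ (n * (r - 1) + e + g / 2)) := by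
  classical
  have hp := (Fact.out : p.Prime)
  rw [Subgroup.closure_union, Subgroup.mem_sup] at hα
  obtain ⟨α₁, h1, α₀, h0, rfl⟩ := hα
  rw [Subgroup.closure_union, Subgroup.mem_sup] at h0
  obtain ⟨α₃, hα₃, α₂, h2, rfl⟩ := h0
  rw [Subgroup.closure_union, Subgroup.closure_eq, Subgroup.mem_sup] at h1
  obtain ⟨α₄, h4, β, hβ, rfl⟩ := h1
  have h5 : α₄ ∈ Subgroup.closure {γ | ∃ i j, γ = φ i (f j)} := by
    refine ((Subgroup.closure_le _).2 ?_) h4
    rintro γ ((h | ⟨i, u, hu, rfl⟩) | ⟨ψ, hψ, j, rfl⟩)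
    · exact Subgroup.subset_closure h
    · rw [Subgroup.mem_bot.1 hu, map_one]; exact one_mem _
    · rw [Subgroup.mem_bot.1 hψ, MonoidHom.one_apply]; exact one_mem _
  have h6 : IndDvd α₄ (p ^ (n * (r - 1 + 0) + 0 / 2)) := by
    refine index_bound (k := k) n hn (g := 0) (e := 0) Fin.elim0 Fin.elim0 ε hdisc φ f hφ hrel α₄ ?_
    refine Subgroup.closure_mono ?_ h5
    intro γ hγ
    exact Or.inl (Or.inl (Or.inl hγ))
  rw [add_zero, Nat.zero_div, add_zero] at h6
  have h8 : HasRep α₄ (p ^ (n * (r - 1))) := h6.hasRep (pow_pos hp.pos _)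
  have h9 : HasRep β m := (hind β hβ).hasRep hm
  have h10 := ((h8.mul h9).mul ((hasRep_pow t α₃ hα₃).mul (hasRep_span (k := k) x α₂ h2))).indDvd
  have e1 : p ^ (n * (r - 1)) * m * (p ^ e * p ^ (g / 2)) = m * p ^ (n * (r - 1) + e + g / 2) := by
    rw [pow_add, pow_add]; ring
  rwa [e1] at h10

theorem index_bound2 {k : Type v} [Field k] [IsAlgClosed k] [Algebra k K] (n : ℕ) {g e r : ℕ}
    (x : Fin g → K) (t : Fin e → K) (φ : Fin r → (Kˣ →* BrauerGroup.{u, u} K))
    (f : Fin r → Kˣ) (hφ : ∀ i, SplitByRoots (p ^ n) (φ i))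
    (hrel : (∃ (O : Type w) (_ : CommRing O) (ε : Module.Basis (Fin r) ℤ O),
      IsCoprime (Algebra.discr ℤ ε) (p : ℤ) ∧
        ∀ c : O, ∏ i, ∏ j, φ i (f j) ^ (Algebra.trace ℤ O (c * ε i * ε j)) = 1) ∨
      (r < p ∧ ∏ i, φ i (f i) = 1))
    (U : Subgroup Kˣ) (Ψ : Subgroup (Kˣ →* BrauerGroup.{u, u} K)) (hΨ : ∀ ψ ∈ Ψ, SplitByRoots (p ^ n) ψ)
    (V₀ : Subgroup (BrauerGroup.{u, u} K)) (hV : ∀ ψ ∈ Ψ, ∀ u ∈ U, ψ u ∈ V₀)
    (m : ℕ) (hm : 0 < m) (hind : ∀ β ∈ V₀, IndDvd β m)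
    (α : BrauerGroup.{u, u} K)
    (hα : α ∈ Subgroup.closure
      (((({γ | ∃ i j, γ = φ i (f j)} ∪ {γ | ∃ i, ∃ u ∈ U, γ = φ i u}) ∪
        {γ | ∃ ψ ∈ Ψ, ∃ j, γ = ψ (f j)}) ∪ (V₀ : Set (BrauerGroup.{u, u} K))) ∪
        ({γ | ∃ a b : K, b ∈ Subfield.closure (Set.range (fun c : K => c ^ p) ∪ Set.range t) ∧
          IsForm p a b γ} ∪
        {γ | ∃ a ∈ Submodule.span k (Set.range x), ∃ b ∈ Submodule.span k (Set.range x), IsForm p a b γ}))) :
    IndDvd α (m * p ^ (n * r + e + g / 2)) := by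
  classical
  have hp := (Fact.out : p.Prime)
  rw [Subgroup.closure_union, Subgroup.mem_sup] at hα
  obtain ⟨α₁, h1, α₀, h0, rfl⟩ := hα
  rw [Subgroup.closure_union, Subgroup.mem_sup] at h0
  obtain ⟨α₃, hα₃, α₂, h2, rfl⟩ := h0
  -- the second part
  have hrep2 : HasRep α₂ (p ^ (g / 2)) := by
    have hfr : Module.finrank k (Submodule.span k (Set.range x)) ≤ g := by
      have := finrank_range_le_card (R := k) x
      rw [Fintype.card_fin] at this
      exact this
    haveI : FiniteDimensional k (Submodule.span k (Set.range x)) :=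
      FiniteDimensional.span_of_finite k (Set.finite_range x)
    have h3 : α₂ ∈ GV p (Submodule.span k (Set.range x)) := by
      refine (Subgroup.closure_mono ?_) h2
      rintro γ ⟨a, ha, b, hb, h⟩
      exact ⟨a, ha, b, hb, (isForm_iff a b γ).1 h⟩
    exact (GV_prd g _ hfr α₂ h3).hasRep
  have hrel' : ∀ m : Matrix (Fin r) (Fin r) ℤ, ∃ N : Matrix (Fin r) (Fin r) ℤ,
      ∏ a, ∏ b, φ a (f b) ^ N a b = 1 ∧ ¬ (p : ℤ) ∣ (m + N).det := by
    intro m
    rcases hrel with ⟨O, _, ε, hdisc, hrel⟩ | ⟨hr, hrel⟩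
    · have hd : ¬ (p : ℤ) ∣ Algebra.discr ℤ ε := by
        intro h
        exact (Nat.prime_iff_prime_int.1 hp).not_unit (hdisc.isUnit_of_dvd' h dvd_rfl)
      obtain ⟨c, hc⟩ := exists_inv ε p hd m
      exact ⟨_, hrel c, hc⟩
    · obtain ⟨c, hc⟩ := exists_inv' p hr m
      refine ⟨_, ?_, hc⟩
      have h3 : ∀ a, ∏ b, φ a (f b) ^ (c • (1 : Matrix (Fin r) (Fin r) ℤ)) a b = φ a (f a) ^ c := by
        intro a
        rw [Finset.prod_eq_single a]
        · simp
        · intro b _ hb; simp [Ne.symm hb]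
        · intro h; exact absurd (Finset.mem_univ _) h
      rw [Finset.prod_congr rfl (fun a _ => h3 a), Finset.prod_zpow, hrel, one_zpow]
  obtain ⟨h, θ, w, β, hθ, hβ, rfl⟩ := twist p n φ f hrel' U Ψ V₀ hV α₁ h1
  have hθ' : ∀ j, SplitByRoots (p ^ n) (θ j) := hθ (typeQ K (p ^ n)) hφ hΨ
  obtain ⟨L, _, _, _, hdeg, hroots⟩ := exists_roots p n K r (fun j => ((h j : Kˣ) : K))
  set δ := (∏ j, θ j (h j)) * (∏ i, φ i (w i ^ (p ^ n))) with hδ
  have h4 : res L δ = 1 := by
    rw [hδ, map_mul, map_prod, map_prod, Finset.prod_eq_one, Finset.prod_eq_one, one_mul]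
    · intro i _
      exact hφ i L _ (algebraMap K L (w i : K)) (by simp)
    · intro j _
      obtain ⟨z, hz⟩ := hroots j
      exact hθ' j L _ z hz
  have h5 : IndDvd δ ((p ^ n) ^ r) := by
    have h6 : IndDvd (res L δ) 1 := by
      rw [h4]
      exact (hasRep_one' (K := L)).indDvd
    have h7 := Pool.Agent.Y109.PI.IndDvd.of_res L h6
    intro D _ _ _ _ hD
    exact (h7 D hD).trans (by rw [mul_one]; exact hdeg)
  have h8 : HasRep δ ((p ^ n) ^ r) := h5.hasRep (pow_pos (pow_pos hp.pos _) _)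
  have h9 : HasRep β m := (hind β hβ).hasRep hm
  -- the part split by the roots of the `t i`
  have h11 : HasRep α₃ (p ^ e) := by
    obtain ⟨L', _, _, _, hdeg', hroots'⟩ := exists_roots p 1 K e t
    haveI : CharP L' p := charP_of_injective_algebraMap (algebraMap K L').injective p
    have h12 : α₃ ∈ (res (F := K) L').ker := by
      refine ((Subgroup.closure_le _).2 ?_) hα₃
      rintro γ ⟨a, b, hb, h⟩
      rw [(isForm_iff a b γ).1 h]
      have hb' : b ∈ Subfield.closure (Set.range (fun c : K => c ^ (p ^ 1)) ∪ Set.range t) := by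
        simpa only [pow_one] using hb
      obtain ⟨z, hz⟩ := closure_powField p 1 K L' t hroots' b hb'
      rw [pow_one] at hz
      exact split_w L' a b z hz
    have h13 : IndDvd α₃ (p ^ e) := by
      have h6 : IndDvd (res L' α₃) 1 := by
        rw [MonoidHom.mem_ker.1 h12]
        exact (hasRep_one' (K := L')).indDvd
      have h7 := Pool.Agent.Y109.PI.IndDvd.of_res L' h6
      rw [pow_one] at hdeg'
      intro D _ _ _ _ hD
      exact (h7 D hD).trans (by rw [mul_one]; exact hdeg')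
    exact h13.hasRep (pow_pos hp.pos _)
  have h10 := ((h8.mul h9).mul (h11.mul hrep2)).indDvd
  have e1 : (p ^ n) ^ r * m * (p ^ e * p ^ (g / 2)) = m * p ^ (n * r + e + g / 2) := by
    rw [← pow_mul, pow_add, pow_add]; ring
  rwa [e1] at h10

end Pool.Agent.W5h91.WF
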